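import Mathlib

/-!
# Unimodality of `F_lambda` for near-rectangular partitions with at least five distinct parts
(MP_71be06_co): definitions and exact statements of the pieces.  Proofs: `NOTES.md` in this folder.
-/

namespace Pool.Agent.R653.UF

open Finset

/-- Number of `k`-element subsets of `{1, ..., l}` with sum `m`. -/
def E (l k : ℕ) (m : ℤ) : ℤ :=
  ((((Icc 1 l).powersetCard k).filter (fun S : Finset ℕ => ∑ x ∈ S, (x : ℤ) = m)).card : ℤ)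

/-- Forward difference. -/
def fd (f : ℤ → ℤ) (m : ℤ) : ℤ := f (m + 1) - f m

/-- Number of `k`-tuples of elements of `{1, ..., l}` with sum `m`. -/
def c (l : ℕ) : ℕ → ℤ → ℤ
  | 0, m => if m = 0 then 1 else 0
  | k + 1, m => ∑ j ∈ Icc 1 l, c l k (m - (j : ℤ))

/-- `D_k(m) = c_k(m) - c_k(m - l)`. -/
def D (l k : ℕ) (m : ℤ) : ℤ := c l k m - c l k (m - (l : ℤ))

/-- Number of sets `S` of positive integers with at most `b` elements, with sum `m`, whose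
`(i+1)`-st largest element is at most `lam i`. -/
def A (b : ℕ) (lam : ℕ → ℕ) (m : ℤ) : ℤ :=
  ((((Icc 1 (lam 0)).powerset).filter (fun S : Finset ℕ => S.card ≤ b ∧
    (∀ i < b, (S.filter (fun x => lam i < x)).card ≤ i) ∧ ∑ x ∈ S, (x : ℤ) = m)).card : ℤ)

/-- `lam 0 > lam 1 > ... > lam (b-1) ≥ 1`. -/
def Dec (b : ℕ) (lam : ℕ → ℕ) : Prop :=
  (∀ i j, i < j → j < b → lam j < lam i) ∧ 1 ≤ lam (b - 1)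

/-- Partitions `mu ⊆ lam` with distinct nonzero parts and size `n`, counted. -/
noncomputable def cnt {b : ℕ} (lam : Fin b → ℕ) (n : ℕ) : ℕ :=
  Nat.card {mu : Fin b → ℕ // (∀ i, mu i ≤ lam i) ∧
    (∀ i j, i < j → mu j < mu i ∨ (mu i = 0 ∧ mu j = 0)) ∧ ∑ i, mu i = n}

/-- Unimodal sequences. -/
def Unimodal (f : ℕ → ℕ) : Prop :=
  ∃ t, (∀ n, n < t → f n ≤ f (n + 1)) ∧ (∀ n, t ≤ n → f (n + 1) ≤ f n)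

/-! ## Pieces: subsets of `{1, ..., l}` -/

/-- UF-NEWT: Newton's identities. -/
def S_NEWT : Prop := ∀ (l k : ℕ), 1 ≤ k → ∀ m : ℤ,
  (k : ℤ) * E l k m =
    ∑ i ∈ Icc 1 k, (-1 : ℤ) ^ (i - 1) * ∑ j ∈ Icc 1 l, E l (k - i) (m - (i : ℤ) * (j : ℤ))

/-- UF-SUP: sums over progressions for `k ≤ 1`. -/
def S_SUP : Prop := ∀ (l k i : ℕ), k ≤ 1 → 1 ≤ i → ∀ m : ℤ,
  ∑ j ∈ Icc 1 l, |E l 0 (m - (i : ℤ) * (j : ℤ))| ≤ 1 ∧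
  ∑ j ∈ Icc 1 l, |fd (E l k) (m - (i : ℤ) * (j : ℤ))| ≤ 2 ∧
  ∑ j ∈ Icc 1 l, |fd (fd (E l k)) (m - (i : ℤ) * (j : ℤ))| ≤ 4

/-- UF-BND: sizes of the counts and of their differences. -/
def S_BND : Prop := ∀ k : ℕ, ∃ C : ℤ, 0 ≤ C ∧ ∀ l : ℕ, 1 ≤ l → ∀ m : ℤ,
  |E l k m| ≤ C * (l : ℤ) ^ (k - 1) ∧ |fd (E l k) m| ≤ C * (l : ℤ) ^ (k - 2) ∧
  |fd (fd (E l k)) m| ≤ C * (l : ℤ) ^ (k - 3)

/-- UF-APP: the main terms. -/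
def S_APP : Prop := ∀ k : ℕ, 5 ≤ k → ∃ C : ℤ, 0 ≤ C ∧ ∀ l : ℕ, 1 ≤ l → ∀ m : ℤ,
  |(k.factorial : ℤ) * fd (E l k) m - D l (k - 1) m| ≤ C * (l : ℤ) ^ (k - 3) ∧
  |(k.factorial : ℤ) * fd (fd (E l k)) m - (D l (k - 2) m - D l (k - 2) (m - (l : ℤ)))|
    ≤ C * (l : ℤ) ^ (k - 4)

/-- UF-ANTI: antisymmetry and sign of `D`. -/
def S_ANTI : Prop := ∀ (l k : ℕ), 1 ≤ k → ∀ m : ℤ,
  D l k ((k : ℤ) * ((l : ℤ) + 1) + (l : ℤ) - m) = - D l k m ∧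
  (2 * m ≤ (k : ℤ) * ((l : ℤ) + 1) + (l : ℤ) → 0 ≤ D l k m)

/-- UF-LOW: lower bound for `D`. -/
def S_LOW : Prop := ∀ (k : ℕ), 1 ≤ k → ∀ n : ℕ, 2 ≤ n → ∃ K l0 : ℕ, 0 < K ∧
  ∀ l : ℕ, l0 ≤ l → ∀ m : ℤ, (l : ℤ) ≤ (n : ℤ) * m →
    2 * (n : ℤ) * m + 2 * (l : ℤ) ≤ (n : ℤ) * ((k : ℤ) * ((l : ℤ) + 1) + (l : ℤ)) →
    (l : ℤ) ^ (k - 1) ≤ (K : ℤ) * D l k m

/-- UF-REC: conclusion for subsets of `{1, ..., l}`. -/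
def S_REC : Prop := ∀ b : ℕ, 5 ≤ b → ∃ K l0 : ℕ, 0 < K ∧ ∀ l : ℕ, l0 ≤ l → ∀ m : ℤ,
  ((l : ℤ) ≤ 8 * m → 8 * m + (l : ℤ) ≤ 4 * ((b : ℤ) * (l : ℤ) + (b : ℤ) - 1) →
    (l : ℤ) ^ (b - 2) ≤ (K : ℤ) * fd (E l b) m) ∧
  (4 * ((b : ℤ) * (l : ℤ) + (b : ℤ) - 1) + (l : ℤ) ≤ 8 * m →
    8 * m + (l : ℤ) ≤ 8 * ((b : ℤ) * (l : ℤ) + (b : ℤ) - 1) →
    (l : ℤ) ^ (b - 2) ≤ -((K : ℤ) * fd (E l b) m)) ∧
  (4 * ((b : ℤ) * (l : ℤ) + (b : ℤ) - 1) ≤ 8 * m + 2 * (l : ℤ) →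
    8 * m ≤ 4 * ((b : ℤ) * (l : ℤ) + (b : ℤ) - 1) + 2 * (l : ℤ) →
    (l : ℤ) ^ (b - 3) ≤ -((K : ℤ) * fd (fd (E l b)) m))

/-! ## Pieces: the partition `lam` -/

/-- UF-DEC: decomposition according to the elements above `lam (b-1)`. -/
def S_DEC : Prop := ∀ (b : ℕ) (lam : ℕ → ℕ), 1 ≤ b → Dec b lam → ∀ m : ℤ,
  A b lam m = ∑ T ∈ ((Icc (lam (b - 1) + 1) (lam 0)).powerset).filter
      (fun T : Finset ℕ => ∀ i < b, (T.filter (fun x => lam i < x)).card ≤ i),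
    ∑ k ∈ range (b - T.card + 1), E (lam (b - 1)) k (m - ∑ x ∈ T, (x : ℤ))

/-- UF-WIN: subsets of a window. -/
def S_WIN : Prop := ∀ (l L t : ℕ) (s : ℤ), l ≤ L →
  ((Icc (l + 1) L).powersetCard t).card ≤ (L - l) ^ t ∧
  (1 ≤ t → (((Icc (l + 1) L).powersetCard t).filter (fun T : Finset ℕ => ∑ x ∈ T, (x : ℤ) = s)).card
    ≤ (L - l) ^ (t - 1))

/-- UF-PERT: comparison of `A` with `E l b`, `l = lam (b-1)`. -/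
def S_PERT : Prop := ∀ b : ℕ, 5 ≤ b → ∃ C : ℤ, 0 ≤ C ∧ ∀ lam : ℕ → ℕ, Dec b lam →
  ∀ w : ℕ, lam 0 = lam (b - 1) + w → w ≤ lam (b - 1) → ∀ m : ℤ,
  |fd (A b lam) m - fd (E (lam (b - 1)) b) m| ≤
    C * ((w : ℤ) + 1) * (lam (b - 1) : ℤ) ^ (b - 3) ∧
  (m + 2 < ((b : ℤ) - 2) * ((lam (b - 1) : ℤ) + 1) →
    |fd (fd (A b lam)) m - fd (fd (E (lam (b - 1)) b)) m| ≤
      C * ((w : ℤ) + 1) * (lam (b - 1) : ℤ) ^ (b - 4))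

/-- UF-BOT: increasing at the beginning. -/
def S_BOT : Prop := ∀ (b : ℕ) (lam : ℕ → ℕ), 1 ≤ b → Dec b lam → ∀ m : ℤ, m < (lam 0 : ℤ) →
  A b lam m ≤ A b lam (m + 1)

/-- UF-TOP: decreasing at the end. -/
def S_TOP : Prop := ∀ (b : ℕ) (lam : ℕ → ℕ), 1 ≤ b → Dec b lam → ∀ m : ℤ,
  (∑ i ∈ range b, (lam i : ℤ)) - (lam (b - 1) : ℤ) ≤ m → A b lam (m + 1) ≤ A b lam m

/-- UF-BRI: partitions as functions and as sets. -/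
def S_BRI : Prop := ∀ (b : ℕ) (lam : Fin b → ℕ), 1 ≤ b → StrictAnti lam → (∀ i, 0 < lam i) →
  ∀ n : ℕ, (cnt lam n : ℤ) = A b (fun i => if h : i < b then lam ⟨i, h⟩ else 0) (n : ℤ)

/-- UF-FIN: the final statement. -/
def S_FIN : Prop := ∀ (b : ℕ) (hb : 5 ≤ b), ∃ ε : ℝ, 0 < ε ∧ ∃ N : ℕ, ∀ lam : Fin b → ℕ,
  StrictAnti lam → (∀ i, 0 < lam i) → N ≤ lam ⟨0, by omega⟩ →
  (1 - ε) * (lam ⟨0, by omega⟩ : ℝ) < (lam ⟨b - 1, by omega⟩ : ℝ) → Unimodal (cnt lam)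

end Pool.Agent.R653.UF
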