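import Mathlib
import Pool.Agent.R653.UF.Stm

/-! UF-ANTI (project MP_71be06_co): antisymmetry and sign of `D`. -/

namespace Pool.Agent.R653.UF

open Finset

namespace Anti27

theorem D_succ (l k : ℕ) (m : ℤ) : D l (k + 1) m = ∑ j ∈ Icc 1 l, D l k (m - (j : ℤ)) := by
  unfold D
  simp only [c]
  rw [← sum_sub_distrib]
  refine sum_congr rfl fun j _ => ?_
  have : m - (l : ℤ) - (j : ℤ) = m - (j : ℤ) - (l : ℤ) := by ring
  rw [this]

theorem c_refl (l k : ℕ) (x : ℤ) : c l k ((k : ℤ) * ((l : ℤ) + 1) - x) = c l k x := by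
  induction k generalizing x with
  | zero =>
    simp only [c]
    split_ifs <;> push_cast at * <;> first | rfl | omega
  | succ k ih =>
    simp only [c]
    refine sum_nbij' (fun j => l + 1 - j) (fun j => l + 1 - j) ?_ ?_ ?_ ?_ ?_
    · intro j hj
      simp only [mem_Icc] at hj ⊢
      omega
    · intro j hj
      simp only [mem_Icc] at hj ⊢
      omega
    · intro j hj
      simp only [mem_Icc] at hj
      omega
    · intro j hj
      simp only [mem_Icc] at hj
      omega
    · intro j hj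
      simp only [mem_Icc] at hj
      have h1 : ((l + 1 - j : ℕ) : ℤ) = (l : ℤ) + 1 - j := by omega
      rw [h1, ← ih]
      congr 1
      push_cast
      ring

theorem D_anti (l k : ℕ) (m : ℤ) :
    D l k ((k : ℤ) * ((l : ℤ) + 1) + (l : ℤ) - m) = - D l k m := by
  unfold D
  have h1 : (k : ℤ) * ((l : ℤ) + 1) + (l : ℤ) - m = (k : ℤ) * ((l : ℤ) + 1) - (m - (l : ℤ)) := by
    ring
  have h2 : (k : ℤ) * ((l : ℤ) + 1) - (m - (l : ℤ)) - (l : ℤ) = (k : ℤ) * ((l : ℤ) + 1) - m := by
    ring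
  rw [h1, h2, c_refl, c_refl]
  ring

theorem win (f : ℤ → ℤ) (M m : ℤ) (l : ℕ) (ha : ∀ y, f (M - y) = - f y)
    (hs : ∀ y, 2 * y ≤ M → 0 ≤ f y) (hm : 2 * m ≤ M + l + 1) :
    0 ≤ ∑ j ∈ Icc 1 l, f (m - (j : ℤ)) := by
  by_cases h : 2 * m ≤ M + 1
  · refine sum_nonneg fun j hj => hs _ ?_
    rw [mem_Icc] at hj
    omega
  · obtain ⟨s, hs'⟩ : ∃ s : ℕ, (s : ℤ) = 2 * m - M - 1 := ⟨(2 * m - M - 1).toNat, by omega⟩
    have e1 : Icc 1 l = Ioc 0 l := by ext x; simp only [mem_Icc, mem_Ioc]; omega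
    rw [e1, ← sum_Ioc_consecutive (fun j : ℕ => f (m - (j : ℤ))) (Nat.zero_le s)
      (show s ≤ l by omega)]
    have h0 : ∑ j ∈ Ioc 0 s, f (m - (j : ℤ)) = 0 := by
      have h1 : ∑ j ∈ Ioc 0 s, f (m - (j : ℤ)) = ∑ j ∈ Ioc 0 s, - f (m - (j : ℤ)) := by
        refine sum_nbij' (fun j => s + 1 - j) (fun j => s + 1 - j) ?_ ?_ ?_ ?_ ?_
        · intro j hj
          simp only [mem_Ioc] at hj ⊢
          omega
        · intro j hj
          simp only [mem_Ioc] at hj ⊢
          omega
        · intro j hj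
          simp only [mem_Ioc] at hj
          omega
        · intro j hj
          simp only [mem_Ioc] at hj
          omega
        · intro j hj
          simp only [mem_Ioc] at hj
          have h1 : ((s + 1 - j : ℕ) : ℤ) = (s : ℤ) + 1 - j := by omega
          rw [h1, ← ha]
          congr 1
          linarith
      rw [sum_neg_distrib] at h1
      linarith
    rw [h0, zero_add]
    refine sum_nonneg fun j hj => hs _ ?_
    rw [mem_Ioc] at hj
    omega

theorem D_sign (l k : ℕ) (m : ℤ) (hm : 2 * m ≤ (k : ℤ) * ((l : ℤ) + 1) + (l : ℤ)) :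
    0 ≤ D l k m := by
  induction k generalizing m with
  | zero =>
    unfold D
    simp only [c]
    push_cast at hm
    split_ifs <;> omega
  | succ k ih =>
    rw [D_succ]
    refine win (D l k) ((k : ℤ) * ((l : ℤ) + 1) + (l : ℤ)) m l (fun y => D_anti l k y)
      (fun y hy => ih y hy) ?_
    push_cast at hm
    linarith

end Anti27

open Anti27 in
theorem t_ANTI : S_ANTI := fun l k _ m => ⟨D_anti l k m, D_sign l k m⟩

end Pool.Agent.R653.UF
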