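import Mathlib
import Pool.Agent.R653.UF.Stm

/-!
# UF-APP (helper179)
-/

namespace Pool.Agent.R653.UF

open Finset

namespace APPaux

/-- telescoping -/
theorem tele (f : ℤ → ℤ) (m : ℤ) : ∀ l : ℕ,
    ∑ j ∈ Icc 1 l, fd f (m - (j : ℤ)) = f m - f (m - (l : ℤ)) := by
  intro l
  induction l with
  | zero => simp
  | succ l ih =>
    rw [Finset.sum_Icc_succ_top (by omega), ih]
    unfold fd
    have e1 : m - ((l + 1 : ℕ) : ℤ) + 1 = m - (l : ℤ) := by push_cast; ring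
    rw [e1]; ring

/-- the rest of a Newton type identity -/
theorem rest {G : ℕ → ℤ → ℤ} {l k : ℕ} {X B : ℤ} {m : ℤ} (hk : 1 ≤ k) (hB : 0 ≤ B)
    (hn : (k : ℤ) * X = ∑ i ∈ Icc 1 k, (-1 : ℤ) ^ (i - 1) *
      ∑ j ∈ Icc 1 l, G (k - i) (m - (i : ℤ) * (j : ℤ)))
    (h : ∀ i, 2 ≤ i → i ≤ k → |∑ j ∈ Icc 1 l, G (k - i) (m - (i : ℤ) * (j : ℤ))| ≤ B) :
    |(k : ℤ) * X - ∑ j ∈ Icc 1 l, G (k - 1) (m - (j : ℤ))| ≤ (k : ℤ) * B := by
  have h1 : (1 : ℕ) ∈ Icc 1 k := by simp [hk]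
  have h2 : (Icc 1 k) \ {1} = Icc 2 k := by
    ext i
    simp only [mem_sdiff, mem_Icc, mem_singleton]
    omega
  rw [hn, Finset.sum_eq_add_sum_sdiff_singleton_of_mem h1, h2]
  have h3 : (-1 : ℤ) ^ (1 - 1) * ∑ j ∈ Icc 1 l, G (k - 1) (m - ((1 : ℕ) : ℤ) * (j : ℤ)) =
      ∑ j ∈ Icc 1 l, G (k - 1) (m - (j : ℤ)) := by
    simp
  rw [h3, add_sub_cancel_left]
  calc |∑ i ∈ Icc 2 k, (-1 : ℤ) ^ (i - 1) * ∑ j ∈ Icc 1 l, G (k - i) (m - (i : ℤ) * (j : ℤ))|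
      ≤ ∑ i ∈ Icc 2 k, |(-1 : ℤ) ^ (i - 1) *
          ∑ j ∈ Icc 1 l, G (k - i) (m - (i : ℤ) * (j : ℤ))| := Finset.abs_sum_le_sum_abs _ _
    _ ≤ ∑ i ∈ Icc 2 k, B := by
        apply Finset.sum_le_sum
        intro i hi
        rw [mem_Icc] at hi
        rw [abs_mul, abs_pow, abs_neg, abs_one, one_pow, one_mul]
        exact h i hi.1 hi.2
    _ = ((Icc 2 k).card : ℤ) * B := by rw [Finset.sum_const, nsmul_eq_mul]
    _ ≤ (k : ℤ) * B := by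
        apply mul_le_mul_of_nonneg_right _ hB
        have : (Icc 2 k).card ≤ k := by rw [Nat.card_Icc]; omega
        exact_mod_cast this

theorem sum_bound {g : ℤ → ℤ} {b : ℤ} (h : ∀ x, |g x| ≤ b) (l i : ℕ) (m : ℤ) :
    |∑ j ∈ Icc 1 l, g (m - (i : ℤ) * (j : ℤ))| ≤ (l : ℤ) * b := by
  calc |∑ j ∈ Icc 1 l, g (m - (i : ℤ) * (j : ℤ))|
      ≤ ∑ j ∈ Icc 1 l, |g (m - (i : ℤ) * (j : ℤ))| := Finset.abs_sum_le_sum_abs _ _
    _ ≤ ∑ j ∈ Icc 1 l, b := Finset.sum_le_sum fun j _ => h _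
    _ = (l : ℤ) * b := by rw [Finset.sum_const, nsmul_eq_mul, Nat.card_Icc]; simp

theorem newt1 (hN : S_NEWT) (l k : ℕ) (hk : 1 ≤ k) (m : ℤ) :
    (k : ℤ) * fd (E l k) m = ∑ i ∈ Icc 1 k, (-1 : ℤ) ^ (i - 1) *
      ∑ j ∈ Icc 1 l, fd (E l (k - i)) (m - (i : ℤ) * (j : ℤ)) := by
  unfold fd
  rw [mul_sub, hN l k hk (m + 1), hN l k hk m, ← Finset.sum_sub_distrib]
  refine Finset.sum_congr rfl fun i _ => ?_
  rw [← mul_sub, ← Finset.sum_sub_distrib]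
  congr 1
  refine Finset.sum_congr rfl fun j _ => ?_
  rw [show m + 1 - (i : ℤ) * (j : ℤ) = m - (i : ℤ) * (j : ℤ) + 1 by ring]

theorem newt2 (hN : S_NEWT) (l k : ℕ) (hk : 1 ≤ k) (m : ℤ) :
    (k : ℤ) * fd (fd (E l k)) m = ∑ i ∈ Icc 1 k, (-1 : ℤ) ^ (i - 1) *
      ∑ j ∈ Icc 1 l, fd (fd (E l (k - i))) (m - (i : ℤ) * (j : ℤ)) := by
  have hu : ∀ (f : ℤ → ℤ) (x : ℤ), fd (fd f) x = fd f (x + 1) - fd f x := fun f x => rfl
  rw [hu, mul_sub, newt1 hN l k hk (m + 1), newt1 hN l k hk m, ← Finset.sum_sub_distrib]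
  refine Finset.sum_congr rfl fun i _ => ?_
  rw [← mul_sub, ← Finset.sum_sub_distrib]
  congr 1
  refine Finset.sum_congr rfl fun j _ => ?_
  rw [hu, show m + 1 - (i : ℤ) * (j : ℤ) = m - (i : ℤ) * (j : ℤ) + 1 by ring]

theorem E_zero (l : ℕ) (m : ℤ) : E l 0 m = c l 0 m := by
  unfold E c
  rw [Finset.powersetCard_zero, Finset.filter_singleton]
  by_cases h : m = 0
  · subst h; simp
  · have h' : ¬ (0 : ℤ) = m := fun h2 => h h2.symm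
    simp [h, h']

theorem E_one (hN : S_NEWT) (l : ℕ) (m : ℤ) : E l 1 m = c l 1 m := by
  have h := hN l 1 le_rfl m
  simp only [Nat.cast_one, one_mul, Icc_self, sum_singleton] at h
  rw [h]
  simp only [c, Nat.sub_self, pow_zero, one_mul, Nat.cast_one]
  refine Finset.sum_congr rfl fun j _ => ?_
  rw [E_zero]
  rfl

/-- a common constant for small `r` -/
theorem unif (hB : S_BND) (k : ℕ) : ∃ C : ℤ, 4 ≤ C ∧ ∀ r : ℕ, r < k → ∀ l : ℕ, 1 ≤ l → ∀ m : ℤ,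
    |E l r m| ≤ C * (l : ℤ) ^ (r - 1) ∧ |fd (E l r) m| ≤ C * (l : ℤ) ^ (r - 2) ∧
    |fd (fd (E l r)) m| ≤ C * (l : ℤ) ^ (r - 3) := by
  choose Cb hC0 hCb using hB
  refine ⟨∑ r ∈ range k, Cb r + 4, ?_, ?_⟩
  · have : 0 ≤ ∑ r ∈ range k, Cb r := Finset.sum_nonneg fun r _ => hC0 r
    linarith
  · intro r hr l hl m
    have h1 : Cb r ≤ ∑ r ∈ range k, Cb r + 4 := by
      have := Finset.single_le_sum (f := Cb) (fun r _ => hC0 r) (mem_range.2 hr)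
      linarith
    obtain ⟨a1, a2, a3⟩ := hCb r l hl m
    have hl0 : (0 : ℤ) ≤ (l : ℤ) := by positivity
    refine ⟨a1.trans ?_, a2.trans ?_, a3.trans ?_⟩ <;>
      exact mul_le_mul_of_nonneg_right h1 (by positivity)

theorem one_le_pow_l {l : ℕ} (hl : 1 ≤ l) (e : ℕ) : (1 : ℤ) ≤ (l : ℤ) ^ e := by
  have : (1 : ℤ) ≤ (l : ℤ) := by exact_mod_cast hl
  exact one_le_pow₀ this

theorem pow_mono_l {l : ℕ} (hl : 1 ≤ l) {e f : ℕ} (h : e ≤ f) : (l : ℤ) ^ e ≤ (l : ℤ) ^ f := by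
  have : (1 : ℤ) ≤ (l : ℤ) := by exact_mod_cast hl
  exact pow_le_pow_right₀ this h

/-- the terms of order zero -/
theorem termE (hS : S_SUP) (hB : S_BND) (k : ℕ) (hk : 2 ≤ k) : ∃ B : ℤ, 0 ≤ B ∧ ∀ l : ℕ, 1 ≤ l →
    ∀ (m : ℤ) (i : ℕ), 2 ≤ i → i ≤ k →
    |∑ j ∈ Icc 1 l, E l (k - i) (m - (i : ℤ) * (j : ℤ))| ≤ B * (l : ℤ) ^ (k - 2) := by
  obtain ⟨C, hC4, hC⟩ := unif hB k
  refine ⟨C, by linarith, ?_⟩
  intro l hl m i hi2 hik
  have hl0 : (0 : ℤ) ≤ (l : ℤ) := by positivity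
  rcases Nat.eq_zero_or_pos (k - i) with h0 | h0
  · rw [h0]
    have h1 := (hS l 0 i (by norm_num) (by omega) m).1
    calc |∑ j ∈ Icc 1 l, E l 0 (m - (i : ℤ) * (j : ℤ))|
        ≤ ∑ j ∈ Icc 1 l, |E l 0 (m - (i : ℤ) * (j : ℤ))| := Finset.abs_sum_le_sum_abs _ _
      _ ≤ 1 := h1
      _ ≤ C * 1 := by linarith
      _ ≤ C * (l : ℤ) ^ (k - 2) :=
          mul_le_mul_of_nonneg_left (one_le_pow_l hl _) (by linarith)
  · have h1 := sum_bound (fun x => (hC (k - i) (by omega) l hl x).1) l i m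
    refine h1.trans ?_
    have e1 : (l : ℤ) * (C * (l : ℤ) ^ (k - i - 1)) = C * (l : ℤ) ^ (k - i) := by
      have : (l : ℤ) ^ (k - i) = (l : ℤ) ^ (k - i - 1) * (l : ℤ) := by
        rw [← pow_succ]; congr 1; omega
      rw [this]; ring
    rw [e1]
    exact mul_le_mul_of_nonneg_left (pow_mono_l hl (by omega)) (by linarith)

theorem termF (hS : S_SUP) (hB : S_BND) (k : ℕ) (hk : 3 ≤ k) : ∃ B : ℤ, 0 ≤ B ∧ ∀ l : ℕ, 1 ≤ l →
    ∀ (m : ℤ) (i : ℕ), 2 ≤ i → i ≤ k →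
    |∑ j ∈ Icc 1 l, fd (E l (k - i)) (m - (i : ℤ) * (j : ℤ))| ≤ B * (l : ℤ) ^ (k - 3) := by
  obtain ⟨C, hC4, hC⟩ := unif hB k
  refine ⟨C, by linarith, ?_⟩
  intro l hl m i hi2 hik
  have hl0 : (0 : ℤ) ≤ (l : ℤ) := by positivity
  rcases Nat.lt_or_ge (k - i) 2 with h0 | h0
  · have h1 := (hS l (k - i) i (by omega) (by omega) m).2.1
    calc |∑ j ∈ Icc 1 l, fd (E l (k - i)) (m - (i : ℤ) * (j : ℤ))|
        ≤ ∑ j ∈ Icc 1 l, |fd (E l (k - i)) (m - (i : ℤ) * (j : ℤ))| :=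
          Finset.abs_sum_le_sum_abs _ _
      _ ≤ 2 := h1
      _ ≤ C * 1 := by linarith
      _ ≤ C * (l : ℤ) ^ (k - 3) :=
          mul_le_mul_of_nonneg_left (one_le_pow_l hl _) (by linarith)
  · have h1 := sum_bound (fun x => (hC (k - i) (by omega) l hl x).2.1) l i m
    refine h1.trans ?_
    have e1 : (l : ℤ) * (C * (l : ℤ) ^ (k - i - 2)) = C * (l : ℤ) ^ (k - i - 1) := by
      have : (l : ℤ) ^ (k - i - 1) = (l : ℤ) ^ (k - i - 2) * (l : ℤ) := by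
        rw [← pow_succ]; congr 1; omega
      rw [this]; ring
    rw [e1]
    exact mul_le_mul_of_nonneg_left (pow_mono_l hl (by omega)) (by linarith)

theorem termG (hS : S_SUP) (hB : S_BND) (k : ℕ) (hk : 5 ≤ k) : ∃ B : ℤ, 0 ≤ B ∧ ∀ l : ℕ, 1 ≤ l →
    ∀ (m : ℤ) (i : ℕ), 2 ≤ i → i ≤ k →
    |∑ j ∈ Icc 1 l, fd (fd (E l (k - i))) (m - (i : ℤ) * (j : ℤ))| ≤ B * (l : ℤ) ^ (k - 4) := by
  obtain ⟨C, hC4, hC⟩ := unif hB k
  refine ⟨C, by linarith, ?_⟩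
  intro l hl m i hi2 hik
  have hl0 : (0 : ℤ) ≤ (l : ℤ) := by positivity
  rcases Nat.lt_or_ge (k - i) 2 with h0 | h0
  · have h1 := (hS l (k - i) i (by omega) (by omega) m).2.2
    calc |∑ j ∈ Icc 1 l, fd (fd (E l (k - i))) (m - (i : ℤ) * (j : ℤ))|
        ≤ ∑ j ∈ Icc 1 l, |fd (fd (E l (k - i))) (m - (i : ℤ) * (j : ℤ))| :=
          Finset.abs_sum_le_sum_abs _ _
      _ ≤ 4 := h1
      _ ≤ C * 1 := by linarith
      _ ≤ C * (l : ℤ) ^ (k - 4) :=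
          mul_le_mul_of_nonneg_left (one_le_pow_l hl _) (by linarith)
  · have h1 := sum_bound (fun x => (hC (k - i) (by omega) l hl x).2.2) l i m
    refine h1.trans ?_
    have e1 : (l : ℤ) * (C * (l : ℤ) ^ (k - i - 3)) = C * (l : ℤ) ^ (k - i - 3 + 1) := by
      rw [pow_succ]; ring
    rw [e1]
    exact mul_le_mul_of_nonneg_left (pow_mono_l hl (by omega)) (by linarith)

/-- (a) -/
theorem partA (hN : S_NEWT) (hS : S_SUP) (hB : S_BND) : ∀ k : ℕ, 2 ≤ k → ∃ C : ℤ, 0 ≤ C ∧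
    ∀ l : ℕ, 1 ≤ l → ∀ m : ℤ, |(k.factorial : ℤ) * E l k m - c l k m| ≤ C * (l : ℤ) ^ (k - 2) := by
  intro k hk
  induction k, hk using Nat.le_induction with
  | base =>
    obtain ⟨B, hB0, hBd⟩ := termE hS hB 2 le_rfl
    refine ⟨2 * B, by positivity, ?_⟩
    intro l hl m
    have h1 := rest (G := fun r => E l r) (l := l) (k := 2) (B := B * (l : ℤ) ^ (2 - 2))
      (by norm_num) (by positivity) (hN l 2 (by norm_num) m) (fun i h2 h3 => hBd l hl m i h2 h3)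
    have h2 : ∑ j ∈ Icc 1 l, E l (2 - 1) (m - (j : ℤ)) = c l 2 m := by
      simp only [show 2 - 1 = 1 from rfl, c]
      refine Finset.sum_congr rfl fun j _ => ?_
      rw [E_one hN]
      rfl
    rw [h2] at h1
    have h3 : ((Nat.factorial 2 : ℕ) : ℤ) = ((2 : ℕ) : ℤ) := by norm_num [Nat.factorial]
    rw [h3]
    refine h1.trans (le_of_eq ?_)
    push_cast; ring
  | succ k hk ih =>
    obtain ⟨C, hC0, hC⟩ := ih
    obtain ⟨B, hB0, hBd⟩ := termE hS hB (k + 1) (by omega)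
    refine ⟨C + (k.factorial : ℤ) * (((k + 1 : ℕ) : ℤ) * B), by positivity, ?_⟩
    intro l hl m
    have hl0 : (0 : ℤ) ≤ (l : ℤ) := by positivity
    have h1 := rest (G := fun r => E l r) (l := l) (k := k + 1)
      (B := B * (l : ℤ) ^ (k + 1 - 2))
      (by omega) (by positivity) (hN l (k + 1) (by omega) m) (fun i h2 h3 => hBd l hl m i h2 h3)
    simp only [Nat.add_sub_cancel] at h1
    have h2 : |∑ j ∈ Icc 1 l, ((k.factorial : ℤ) * E l k (m - ((1 : ℕ) : ℤ) * (j : ℤ)) -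
        c l k (m - ((1 : ℕ) : ℤ) * (j : ℤ)))| ≤ (l : ℤ) * (C * (l : ℤ) ^ (k - 2)) :=
      sum_bound (g := fun x => (k.factorial : ℤ) * E l k x - c l k x) (fun x => hC l hl x) l 1 m
    have e0 : ∑ j ∈ Icc 1 l, ((k.factorial : ℤ) * E l k (m - ((1 : ℕ) : ℤ) * (j : ℤ)) -
        c l k (m - ((1 : ℕ) : ℤ) * (j : ℤ))) =
        (k.factorial : ℤ) * ∑ j ∈ Icc 1 l, E l k (m - (j : ℤ)) - c l (k + 1) m := by
      rw [Finset.sum_sub_distrib, ← Finset.mul_sum]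
      simp only [Nat.cast_one, one_mul]
      rfl
    rw [e0] at h2
    have e1 : (((k + 1).factorial : ℕ) : ℤ) * E l (k + 1) m - c l (k + 1) m =
        (k.factorial : ℤ) * (((k + 1 : ℕ) : ℤ) * E l (k + 1) m -
          ∑ j ∈ Icc 1 l, E l k (m - (j : ℤ))) +
        ((k.factorial : ℤ) * ∑ j ∈ Icc 1 l, E l k (m - (j : ℤ)) - c l (k + 1) m) := by
      rw [Nat.factorial_succ]; push_cast; ring
    rw [e1]
    refine (abs_add_le _ _).trans ?_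
    rw [abs_mul, abs_of_nonneg (by positivity : (0 : ℤ) ≤ (k.factorial : ℤ))]
    have h3 : (k.factorial : ℤ) * |((k + 1 : ℕ) : ℤ) * E l (k + 1) m -
        ∑ j ∈ Icc 1 l, E l k (m - (j : ℤ))| ≤
        (k.factorial : ℤ) * (((k + 1 : ℕ) : ℤ) * (B * (l : ℤ) ^ (k + 1 - 2))) :=
      mul_le_mul_of_nonneg_left h1 (by positivity)
    have e2 : (l : ℤ) * (C * (l : ℤ) ^ (k - 2)) = C * (l : ℤ) ^ (k + 1 - 2) := by
      have : (l : ℤ) ^ (k + 1 - 2) = (l : ℤ) ^ (k - 2) * (l : ℤ) := by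
        rw [← pow_succ]; congr 1; omega
      rw [this]; ring
    rw [e2] at h2
    calc _ ≤ (k.factorial : ℤ) * (((k + 1 : ℕ) : ℤ) * (B * (l : ℤ) ^ (k + 1 - 2))) +
          C * (l : ℤ) ^ (k + 1 - 2) := add_le_add h3 h2
      _ = _ := by ring

/-- first claim -/
theorem partB (hN : S_NEWT) (hS : S_SUP) (hB : S_BND) (k : ℕ) (hk : 3 ≤ k) : ∃ C : ℤ, 0 ≤ C ∧
    ∀ l : ℕ, 1 ≤ l → ∀ m : ℤ,
    |(k.factorial : ℤ) * fd (E l k) m - D l (k - 1) m| ≤ C * (l : ℤ) ^ (k - 3) := by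
  obtain ⟨k', rfl⟩ : ∃ k', k = k' + 1 := ⟨k - 1, by omega⟩
  obtain ⟨C, hC0, hC⟩ := partA hN hS hB k' (by omega)
  obtain ⟨B, hB0, hBd⟩ := termF hS hB (k' + 1) hk
  refine ⟨(k'.factorial : ℤ) * (((k' + 1 : ℕ) : ℤ) * B) + 2 * C, by positivity, ?_⟩
  intro l hl m
  have hl0 : (0 : ℤ) ≤ (l : ℤ) := by positivity
  have h1 := rest (G := fun r => fd (E l r)) (l := l) (k := k' + 1)
    (B := B * (l : ℤ) ^ (k' + 1 - 3))
    (by omega) (by positivity) (newt1 hN l (k' + 1) (by omega) m)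
    (fun i h2 h3 => hBd l hl m i h2 h3)
  simp only [Nat.add_sub_cancel] at h1 ⊢
  rw [tele] at h1
  have e0 : k' - 2 = k' + 1 - 3 := by omega
  have h2 := hC l hl m
  have h3 := hC l hl (m - (l : ℤ))
  rw [e0] at h2 h3
  have e1 : (((k' + 1).factorial : ℕ) : ℤ) * fd (E l (k' + 1)) m - D l k' m =
      (k'.factorial : ℤ) * (((k' + 1 : ℕ) : ℤ) * fd (E l (k' + 1)) m -
        (E l k' m - E l k' (m - (l : ℤ)))) +
      (((k'.factorial : ℤ) * E l k' m - c l k' m) -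
        ((k'.factorial : ℤ) * E l k' (m - (l : ℤ)) - c l k' (m - (l : ℤ)))) := by
    unfold D
    rw [Nat.factorial_succ]; push_cast; ring
  rw [e1]
  refine (abs_add_le _ _).trans ?_
  rw [abs_mul, abs_of_nonneg (by positivity : (0 : ℤ) ≤ (k'.factorial : ℤ))]
  have h4 := mul_le_mul_of_nonneg_left h1 (by positivity : (0 : ℤ) ≤ (k'.factorial : ℤ))
  have h5 := abs_sub ((k'.factorial : ℤ) * E l k' m - c l k' m)
    ((k'.factorial : ℤ) * E l k' (m - (l : ℤ)) - c l k' (m - (l : ℤ)))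
  calc _ ≤ (k'.factorial : ℤ) * (((k' + 1 : ℕ) : ℤ) * (B * (l : ℤ) ^ (k' + 1 - 3))) +
        (C * (l : ℤ) ^ (k' + 1 - 3) + C * (l : ℤ) ^ (k' + 1 - 3)) :=
        add_le_add h4 (h5.trans (add_le_add h2 h3))
    _ = _ := by ring

/-- second claim -/
theorem partC (hN : S_NEWT) (hS : S_SUP) (hB : S_BND) (k : ℕ) (hk : 5 ≤ k) : ∃ C : ℤ, 0 ≤ C ∧
    ∀ l : ℕ, 1 ≤ l → ∀ m : ℤ,
    |(k.factorial : ℤ) * fd (fd (E l k)) m - (D l (k - 2) m - D l (k - 2) (m - (l : ℤ)))| ≤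
      C * (l : ℤ) ^ (k - 4) := by
  obtain ⟨k', rfl⟩ : ∃ k', k = k' + 1 := ⟨k - 1, by omega⟩
  obtain ⟨C, hC0, hC⟩ := partB hN hS hB k' (by omega)
  obtain ⟨B, hB0, hBd⟩ := termG hS hB (k' + 1) hk
  refine ⟨(k'.factorial : ℤ) * (((k' + 1 : ℕ) : ℤ) * B) + 2 * C, by positivity, ?_⟩
  intro l hl m
  have hl0 : (0 : ℤ) ≤ (l : ℤ) := by positivity
  have h1 := rest (G := fun r => fd (fd (E l r))) (l := l) (k := k' + 1)
    (B := B * (l : ℤ) ^ (k' + 1 - 4))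
    (by omega) (by positivity) (newt2 hN l (k' + 1) (by omega) m)
    (fun i h2 h3 => hBd l hl m i h2 h3)
  simp only [Nat.add_sub_cancel] at h1
  rw [tele] at h1
  have e0 : k' - 3 = k' + 1 - 4 := by omega
  have e00 : k' + 1 - 2 = k' - 1 := by omega
  have h2 := hC l hl m
  have h3 := hC l hl (m - (l : ℤ))
  rw [e0] at h2 h3
  rw [e00]
  have e1 : (((k' + 1).factorial : ℕ) : ℤ) * fd (fd (E l (k' + 1))) m -
      (D l (k' - 1) m - D l (k' - 1) (m - (l : ℤ))) =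
      (k'.factorial : ℤ) * (((k' + 1 : ℕ) : ℤ) * fd (fd (E l (k' + 1))) m -
        (fd (E l k') m - fd (E l k') (m - (l : ℤ)))) +
      (((k'.factorial : ℤ) * fd (E l k') m - D l (k' - 1) m) -
        ((k'.factorial : ℤ) * fd (E l k') (m - (l : ℤ)) - D l (k' - 1) (m - (l : ℤ)))) := by
    rw [Nat.factorial_succ]; push_cast; ring
  rw [e1]
  refine (abs_add_le _ _).trans ?_
  rw [abs_mul, abs_of_nonneg (by positivity : (0 : ℤ) ≤ (k'.factorial : ℤ))]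
  have h4 := mul_le_mul_of_nonneg_left h1 (by positivity : (0 : ℤ) ≤ (k'.factorial : ℤ))
  have h5 := abs_sub ((k'.factorial : ℤ) * fd (E l k') m - D l (k' - 1) m)
    ((k'.factorial : ℤ) * fd (E l k') (m - (l : ℤ)) - D l (k' - 1) (m - (l : ℤ)))
  calc _ ≤ (k'.factorial : ℤ) * (((k' + 1 : ℕ) : ℤ) * (B * (l : ℤ) ^ (k' + 1 - 4))) +
        (C * (l : ℤ) ^ (k' + 1 - 4) + C * (l : ℤ) ^ (k' + 1 - 4)) :=
        add_le_add h4 (h5.trans (add_le_add h2 h3))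
    _ = _ := by ring

end APPaux

open APPaux in
theorem t_APP (hN : S_NEWT) (hS : S_SUP) (hB : S_BND) : S_APP := by
  intro k hk
  obtain ⟨C1, h10, h1⟩ := partB hN hS hB k (by omega)
  obtain ⟨C2, h20, h2⟩ := partC hN hS hB k hk
  refine ⟨C1 + C2, by positivity, ?_⟩
  intro l hl m
  have hl0 : (0 : ℤ) ≤ (l : ℤ) := by positivity
  refine ⟨(h1 l hl m).trans ?_, (h2 l hl m).trans ?_⟩
  · exact mul_le_mul_of_nonneg_right (by linarith) (by positivity)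
  · exact mul_le_mul_of_nonneg_right (by linarith) (by positivity)

end Pool.Agent.R653.UF
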