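import Mathlib
import Pool.Agent.R653.UF.Stm

/-!
# UF-BND: sizes of the counts and of their differences.
-/

namespace Pool.Agent.R653.UF

open Finset

namespace BND

private lemma fd_newt (f : ℕ → ℤ → ℤ) (l k : ℕ)
    (hf : ∀ m : ℤ, (k : ℤ) * f k m =
      ∑ i ∈ Icc 1 k, (-1 : ℤ) ^ (i - 1) * ∑ j ∈ Icc 1 l, f (k - i) (m - (i : ℤ) * (j : ℤ)))
    (m : ℤ) :
    (k : ℤ) * fd (f k) m =
      ∑ i ∈ Icc 1 k, (-1 : ℤ) ^ (i - 1) * ∑ j ∈ Icc 1 l, fd (f (k - i)) (m - (i : ℤ) * (j : ℤ)) := by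
  unfold fd
  rw [mul_sub, hf, hf, ← Finset.sum_sub_distrib]
  refine Finset.sum_congr rfl fun i _ => ?_
  rw [← mul_sub, ← Finset.sum_sub_distrib]
  congr 1
  refine Finset.sum_congr rfl fun j _ => ?_
  have : m + 1 - (i : ℤ) * (j : ℤ) = m - (i : ℤ) * (j : ℤ) + 1 := by ring
  rw [this]

private lemma tele (f : ℤ → ℤ) (l : ℕ) (m : ℤ) :
    ∑ j ∈ Icc 1 l, fd f (m - ((1 : ℕ) : ℤ) * (j : ℤ)) = f m - f (m - (l : ℤ)) := by
  induction l with
  | zero => simp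
  | succ n ih =>
    rw [Finset.sum_Icc_succ_top (by omega), ih]
    unfold fd
    have h1 : m - ((1 : ℕ) : ℤ) * ((n + 1 : ℕ) : ℤ) + 1 = m - (n : ℤ) := by push_cast; ring
    have h2 : m - ((1 : ℕ) : ℤ) * ((n + 1 : ℕ) : ℤ) = m - ((n + 1 : ℕ) : ℤ) := by push_cast; ring
    rw [h1, h2]
    ring

private lemma bnd_gen (k : ℕ) (hk : 1 ≤ k) (g : ℕ → ℤ) (x B : ℤ)
    (h : ∀ i ∈ Icc 1 k, |g i| ≤ B)
    (hx : (k : ℤ) * x = ∑ i ∈ Icc 1 k, (-1 : ℤ) ^ (i - 1) * g i) : |x| ≤ (k : ℤ) * B := by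
  have h1 : |(k : ℤ) * x| ≤ (k : ℤ) * B := by
    rw [hx]
    calc |∑ i ∈ Icc 1 k, (-1 : ℤ) ^ (i - 1) * g i|
        ≤ ∑ i ∈ Icc 1 k, |(-1 : ℤ) ^ (i - 1) * g i| := Finset.abs_sum_le_sum_abs _ _
      _ ≤ ∑ i ∈ Icc 1 k, B := by
          refine Finset.sum_le_sum fun i hi => ?_
          rw [abs_mul, abs_pow, abs_neg, abs_one, one_pow, one_mul]
          exact h i hi
      _ = (k : ℤ) * B := by simp
  have hk' : (1 : ℤ) ≤ (k : ℤ) := by exact_mod_cast hk
  rw [abs_mul, abs_of_nonneg (by omega : (0 : ℤ) ≤ (k : ℤ))] at h1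
  nlinarith [abs_nonneg x]

private lemma sum_bnd (l : ℕ) (g : ℕ → ℤ) (B : ℤ) (h : ∀ j ∈ Icc 1 l, |g j| ≤ B) :
    |∑ j ∈ Icc 1 l, g j| ≤ (l : ℤ) * B := by
  calc |∑ j ∈ Icc 1 l, g j| ≤ ∑ j ∈ Icc 1 l, |g j| := Finset.abs_sum_le_sum_abs _ _
    _ ≤ ∑ j ∈ Icc 1 l, B := Finset.sum_le_sum h
    _ = (l : ℤ) * B := by simp

private lemma pow_mono (l a b : ℕ) (hl : 1 ≤ l) (hab : a ≤ b) : (l : ℤ) ^ a ≤ (l : ℤ) ^ b :=
  pow_le_pow_right₀ (by exact_mod_cast hl) hab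

private lemma one_le_pow' (l a : ℕ) (hl : 1 ≤ l) : 1 ≤ (l : ℤ) ^ a :=
  one_le_pow₀ (by exact_mod_cast hl)

/-- a window sum bound: `l * (C l^a) ≤ C l^b` if `a + 1 ≤ b`. -/
private lemma win (l a b : ℕ) (hl : 1 ≤ l) (hab : a + 1 ≤ b) (C : ℤ) (hC : 0 ≤ C) :
    (l : ℤ) * (C * (l : ℤ) ^ a) ≤ C * (l : ℤ) ^ b := by
  have : (l : ℤ) * (C * (l : ℤ) ^ a) = C * (l : ℤ) ^ (a + 1) := by ring
  rw [this]
  exact mul_le_mul_of_nonneg_left (pow_mono l _ _ hl hab) hC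

private lemma single (l : ℕ) (hl : 1 ≤ l) (g : ℤ → ℤ) (B : ℤ)
    (h : ∀ m : ℤ, ∑ j ∈ Icc 1 l, |g (m - ((1 : ℕ) : ℤ) * (j : ℤ))| ≤ B) (m : ℤ) : |g m| ≤ B := by
  have h1 := h (m + 1)
  have h2 : |g (m + 1 - ((1 : ℕ) : ℤ) * ((1 : ℕ) : ℤ))| ≤
      ∑ j ∈ Icc 1 l, |g (m + 1 - ((1 : ℕ) : ℤ) * (j : ℤ))| :=
    Finset.single_le_sum (f := fun j : ℕ => |g (m + 1 - ((1 : ℕ) : ℤ) * (j : ℤ))|)
      (fun j _ => abs_nonneg _) (Finset.mem_Icc.2 ⟨le_refl 1, hl⟩)
  have h3 : m + 1 - ((1 : ℕ) : ℤ) * ((1 : ℕ) : ℤ) = m := by push_cast; ring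
  rw [h3] at h2
  exact h2.trans h1

end BND

open BND in
theorem t_BND (hN : S_NEWT) (hS : S_SUP) : S_BND := by
  intro k
  induction k using Nat.strong_induction_on with
  | _ k ih =>
  rcases Nat.lt_or_ge k 2 with hk | hk
  · -- small cases
    refine ⟨4, by norm_num, fun l hl m => ?_⟩
    have hk1 : k - 1 = 0 := by omega
    have hk2 : k - 2 = 0 := by omega
    have hk3 : k - 3 = 0 := by omega
    rw [hk1, hk2, hk3]
    simp only [pow_zero, mul_one]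
    have hE0 : ∀ m : ℤ, |E l 0 m| ≤ 1 := fun m =>
      single l hl (E l 0) 1 (fun m => (hS l 0 1 (by norm_num) le_rfl m).1) m
    have hf : |fd (E l k) m| ≤ 2 :=
      single l hl (fd (E l k)) 2 (fun m => (hS l k 1 (by omega) le_rfl m).2.1) m
    have hff : |fd (fd (E l k)) m| ≤ 4 :=
      single l hl (fd (fd (E l k))) 4 (fun m => (hS l k 1 (by omega) le_rfl m).2.2) m
    refine ⟨?_, by linarith, hff⟩
    interval_cases k
    · linarith [hE0 m]
    · have h1 := hN l 1 le_rfl m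
      simp only [Nat.cast_one, one_mul, Icc_self, sum_singleton, Nat.sub_self, pow_zero] at h1
      rw [h1]
      have h2 := (hS l 0 1 (by norm_num) le_rfl m).1
      simp only [Nat.cast_one, one_mul] at h2
      have h3 := Finset.abs_sum_le_sum_abs (fun j : ℕ => E l 0 (m - (j : ℤ))) (Icc 1 l)
      linarith
  · -- the induction step
    choose! C hC0 hC using ih
    set C' : ℤ := ∑ j ∈ range k, C j with hC'
    have hC'0 : 0 ≤ C' := Finset.sum_nonneg fun j hj => hC0 j (Finset.mem_range.1 hj)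
    have hle : ∀ j < k, C j ≤ C' := fun j hj =>
      Finset.single_le_sum (f := C) (fun j hj => hC0 j (Finset.mem_range.1 hj))
        (Finset.mem_range.2 hj)
    have H : ∀ j < k, ∀ l : ℕ, 1 ≤ l → ∀ m : ℤ,
        |E l j m| ≤ C' * (l : ℤ) ^ (j - 1) ∧ |fd (E l j) m| ≤ C' * (l : ℤ) ^ (j - 2) ∧
        |fd (fd (E l j)) m| ≤ C' * (l : ℤ) ^ (j - 3) := by
      intro j hj l hl m
      obtain ⟨h1, h2, h3⟩ := hC j hj l hl m
      have hp : ∀ a : ℕ, C j * (l : ℤ) ^ a ≤ C' * (l : ℤ) ^ a := fun a =>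
        mul_le_mul_of_nonneg_right (hle j hj) (by positivity)
      exact ⟨h1.trans (hp _), h2.trans (hp _), h3.trans (hp _)⟩
    refine ⟨(k : ℤ) * (2 * C' + 4), by positivity, fun l hl m => ?_⟩
    have hk1 : 1 ≤ k := by omega
    have n0 := hN l k hk1
    have n1 := fd_newt (E l) l k n0
    have n2 : ∀ m : ℤ, (k : ℤ) * fd (fd (E l k)) m =
      ∑ i ∈ Icc 1 k, (-1 : ℤ) ^ (i - 1) *
        ∑ j ∈ Icc 1 l, fd (fd (E l (k - i))) (m - (i : ℤ) * (j : ℤ)) :=
      fd_newt (fun k => fd (E l k)) l k n1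
    refine ⟨?_, ?_, ?_⟩
    · rw [mul_assoc]
      refine bnd_gen k hk1 _ _ _ (fun i hi => ?_) (n0 m)
      rw [Finset.mem_Icc] at hi
      have hp := one_le_pow' l (k - 1) hl
      rcases Nat.eq_zero_or_pos (k - i) with h0 | h0
      · rw [h0]
        have h1 := (hS l 0 i (by norm_num) hi.1 m).1
        have h2 := Finset.abs_sum_le_sum_abs (fun j : ℕ => E l 0 (m - (i : ℤ) * (j : ℤ))) (Icc 1 l)
        nlinarith
      · have h1 := sum_bnd l (fun j : ℕ => E l (k - i) (m - (i : ℤ) * (j : ℤ)))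
          (C' * (l : ℤ) ^ (k - i - 1)) (fun j _ => (H (k - i) (by omega) l hl _).1)
        have h2 := win l (k - i - 1) (k - 1) hl (by omega) C' hC'0
        nlinarith
    · rw [mul_assoc]
      refine bnd_gen k hk1 _ _ _ (fun i hi => ?_) (n1 m)
      rw [Finset.mem_Icc] at hi
      have hp := one_le_pow' l (k - 2) hl
      rcases Nat.lt_or_ge i 2 with hi2 | hi2
      · have hi1 : i = 1 := by omega
        subst hi1
        rw [tele]
        have h1 := (H (k - 1) (by omega) l hl m).1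
        have h2 := (H (k - 1) (by omega) l hl (m - (l : ℤ))).1
        have h3 := abs_sub (E l (k - 1) m) (E l (k - 1) (m - (l : ℤ)))
        have hkk : k - 1 - 1 = k - 2 := by omega
        rw [hkk] at h1 h2
        nlinarith
      · rcases Nat.lt_or_ge (k - i) 2 with h0 | h0
        · have h1 := (hS l (k - i) i (by omega) hi.1 m).2.1
          have h2 := Finset.abs_sum_le_sum_abs
            (fun j : ℕ => fd (E l (k - i)) (m - (i : ℤ) * (j : ℤ))) (Icc 1 l)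
          nlinarith
        · have h1 := sum_bnd l (fun j : ℕ => fd (E l (k - i)) (m - (i : ℤ) * (j : ℤ)))
            (C' * (l : ℤ) ^ (k - i - 2)) (fun j _ => (H (k - i) (by omega) l hl _).2.1)
          have h2 := win l (k - i - 2) (k - 2) hl (by omega) C' hC'0
          nlinarith
    · rw [mul_assoc]
      refine bnd_gen k hk1 _ _ _ (fun i hi => ?_) (n2 m)
      rw [Finset.mem_Icc] at hi
      have hp := one_le_pow' l (k - 3) hl
      rcases Nat.lt_or_ge i 2 with hi2 | hi2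
      · have hi1 : i = 1 := by omega
        subst hi1
        rw [tele]
        have h1 := (H (k - 1) (by omega) l hl m).2.1
        have h2 := (H (k - 1) (by omega) l hl (m - (l : ℤ))).2.1
        have h3 := abs_sub (fd (E l (k - 1)) m) (fd (E l (k - 1)) (m - (l : ℤ)))
        have hkk : k - 1 - 2 = k - 3 := by omega
        rw [hkk] at h1 h2
        nlinarith
      · rcases Nat.lt_or_ge (k - i) 2 with h0 | h0
        · have h1 := (hS l (k - i) i (by omega) hi.1 m).2.2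
          have h2 := Finset.abs_sum_le_sum_abs
            (fun j : ℕ => fd (fd (E l (k - i))) (m - (i : ℤ) * (j : ℤ))) (Icc 1 l)
          nlinarith
        · have h1 := sum_bnd l (fun j : ℕ => fd (fd (E l (k - i))) (m - (i : ℤ) * (j : ℤ)))
            (C' * (l : ℤ) ^ (k - i - 3)) (fun j _ => (H (k - i) (by omega) l hl _).2.2)
          have h2 := win l (k - i - 3) (k - 3) hl (by omega) C' hC'0
          nlinarith

end Pool.Agent.R653.UF
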