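import Mathlib
import Pool.Agent.R653.UF.Stm

/-!
# Project UF, piece BOT: the counts increase at the beginning
-/

namespace Pool.Agent.R653.UF.BOT

open Finset

theorem sup_mem {S : Finset ℕ} (h : S.Nonempty) : S.sup id ∈ S := by
  obtain ⟨x, hx, e⟩ := Finset.exists_mem_eq_sup S h id
  rw [e]
  exact hx

theorem le_sup' {S : Finset ℕ} {x : ℕ} (h : x ∈ S) : x ≤ S.sup id :=
  Finset.le_sup (f := id) h

/-- increase the maximum by one -/
def f (S : Finset ℕ) : Finset ℕ :=
  if S = ∅ then {1} else insert (S.sup id + 1) (S.erase (S.sup id))

theorem succ_notMem (S : Finset ℕ) : S.sup id + 1 ∉ S.erase (S.sup id) := by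
  intro h
  have := le_sup' (Finset.mem_of_mem_erase h)
  omega

theorem f_of_ne {S : Finset ℕ} (h : S.Nonempty) :
    f S = insert (S.sup id + 1) (S.erase (S.sup id)) := by
  rw [f, if_neg h.ne_empty]

theorem sup_f {S : Finset ℕ} (h : S.Nonempty) : (f S).sup id = S.sup id + 1 := by
  rw [f_of_ne h, Finset.sup_insert]
  apply le_antisymm
  · refine sup_le le_rfl ?_
    refine Finset.sup_le fun x hx => ?_
    have := le_sup' (Finset.mem_of_mem_erase hx)
    simp only [id]
    omega
  · exact le_sup_left

theorem inj_ne {S S' : Finset ℕ} (h : S.Nonempty) (h' : S'.Nonempty) (e : f S = f S') :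
    S = S' := by
  have e1 : S.sup id = S'.sup id := by
    have := sup_f h
    rw [e, sup_f h'] at this
    omega
  have e2 : S.erase (S.sup id) = S'.erase (S'.sup id) := by
    have h1 : (f S).erase (S.sup id + 1) = S.erase (S.sup id) := by
      rw [f_of_ne h, Finset.erase_insert (succ_notMem S)]
    have h2 : (f S').erase (S'.sup id + 1) = S'.erase (S'.sup id) := by
      rw [f_of_ne h', Finset.erase_insert (succ_notMem S')]
    rw [← h1, ← h2, e, e1]
  rw [← Finset.insert_erase (sup_mem h), ← Finset.insert_erase (sup_mem h'), e2, e1]

theorem bot_main : S_BOT := by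
  intro b lam hb hlam m hm
  unfold A
  norm_cast
  refine Finset.card_le_card_of_injOn f ?_ ?_
  · intro S hS
    simp only [coe_filter, mem_powerset, Set.mem_ofPred_eq] at hS ⊢
    obtain ⟨hS1, hS2, hS3, hS4⟩ := hS
    rcases S.eq_empty_or_nonempty with rfl | hne
    · -- the empty set
      have hm0 : m = 0 := by simpa using hS4.symm
      have hf : f ∅ = {1} := by simp [f]
      rw [hf]
      have h0 : 1 ≤ lam 0 := by
        have : (0 : ℤ) < lam 0 := by rw [hm0] at hm; exact hm
        exact_mod_cast this
      refine ⟨?_, ?_, ?_, ?_⟩
      · intro x hx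
        rw [Finset.mem_singleton] at hx
        rw [hx, Finset.mem_Icc]
        exact ⟨le_rfl, h0⟩
      · simpa using hb
      · intro i hi
        rcases Nat.eq_zero_or_pos i with h | h
        · subst h
          have : ({1} : Finset ℕ).filter (fun x => lam 0 < x) = ∅ := by
            rw [Finset.filter_eq_empty_iff]
            intro x hx
            rw [Finset.mem_singleton] at hx
            omega
          rw [this]
          simp
        · exact (Finset.card_filter_le _ _).trans (by rw [Finset.card_singleton]; exact h)
      · simp [hm0]
    · -- nonempty sets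
      have hM := sup_mem hne
      set M := S.sup id with hMdef
      have hfS : f S = insert (M + 1) (S.erase M) := f_of_ne hne
      have hnm : M + 1 ∉ S.erase M := succ_notMem S
      have hMm : (M : ℤ) ≤ m := by
        rw [← hS4]
        exact Finset.single_le_sum (f := fun x : ℕ => (x : ℤ)) (fun x _ => by positivity) hM
      have hM0 : M + 1 ≤ lam 0 := by
        have : (M : ℤ) < lam 0 := lt_of_le_of_lt hMm hm
        have : M < lam 0 := by exact_mod_cast this
        omega
      have hsub : f S ⊆ Icc 1 (lam 0) := by
        rw [hfS]
        intro x hx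
        rw [Finset.mem_insert] at hx
        rcases hx with hx | hx
        · rw [hx, Finset.mem_Icc]
          omega
        · exact hS1 (Finset.mem_of_mem_erase hx)
      refine ⟨hsub, ?_, ?_, ?_⟩
      · rw [hfS, Finset.card_insert_of_notMem hnm, Finset.card_erase_of_mem hM]
        have : 0 < S.card := hne.card_pos
        omega
      · intro i hi
        rcases Nat.eq_zero_or_pos i with h | h
        · subst h
          have : (f S).filter (fun x => lam 0 < x) = ∅ := by
            rw [Finset.filter_eq_empty_iff]
            intro x hx
            have := (Finset.mem_Icc.1 (hsub hx)).2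
            omega
          rw [this]
          simp
        · have hsub2 : (f S).filter (fun x => lam i < x) ⊆
              insert (M + 1) ((S.filter (fun x => lam i < x)).erase M) := by
            intro x hx
            rw [Finset.mem_filter, hfS, Finset.mem_insert, Finset.mem_erase] at hx
            rw [Finset.mem_insert, Finset.mem_erase, Finset.mem_filter]
            tauto
          have hc := (Finset.card_le_card hsub2).trans (Finset.card_insert_le _ _)
          by_cases hMi : lam i < M
          · have hMf : M ∈ S.filter (fun x => lam i < x) := Finset.mem_filter.2 ⟨hM, hMi⟩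
            rw [Finset.card_erase_of_mem hMf] at hc
            have h1 := hS3 i hi
            have h2 : 0 < (S.filter (fun x => lam i < x)).card := Finset.card_pos.2 ⟨M, hMf⟩
            omega
          · have he : S.filter (fun x => lam i < x) = ∅ := by
              rw [Finset.filter_eq_empty_iff]
              intro x hx
              have := le_sup' hx
              omega
            rw [he] at hc
            simp at hc
            omega
      · rw [hfS, Finset.sum_insert hnm]
        have h1 := Finset.add_sum_erase S (fun x : ℕ => (x : ℤ)) hM
        push_cast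
        rw [← hS4, ← h1]
        ring
  · intro S hS S' hS' e
    simp only [coe_filter, mem_powerset, Set.mem_ofPred_eq] at hS hS'
    have key : ∀ T T' : Finset ℕ, T ⊆ Icc 1 (lam 0) → T = ∅ → T'.Nonempty → T' ⊆ Icc 1 (lam 0) →
        f T = f T' → False := by
      intro T T' _ hT hT' hsub' e
      subst hT
      have h1 : f ∅ = {1} := by simp [f]
      have h2 : T'.sup id + 1 ∈ f T' := by
        rw [f_of_ne hT']
        exact Finset.mem_insert_self _ _
      rw [← e, h1, Finset.mem_singleton] at h2
      have h3 := Finset.mem_Icc.1 (hsub' (sup_mem hT'))
      omega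
    rcases S.eq_empty_or_nonempty with h | h
    · rcases S'.eq_empty_or_nonempty with h' | h'
      · rw [h, h']
      · exact (key S S' hS.1 h h' hS'.1 e).elim
    · rcases S'.eq_empty_or_nonempty with h' | h'
      · exact (key S' S hS'.1 h' h hS.1 e.symm).elim
      · exact inj_ne h h' e

end Pool.Agent.R653.UF.BOT

namespace Pool.Agent.R653.UF

/-- UF-BOT -/
theorem t_BOT : S_BOT := BOT.bot_main

end Pool.Agent.R653.UF
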