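import Mathlib
import Pool.Agent.R653.UF.Stm

/-! UF-BRI: partitions as functions and as sets. -/

namespace Pool.Agent.R653.UF

namespace BRIx

open Finset

/-- the decreasing condition -/
def Dc {b : ℕ} (mu : Fin b → ℕ) : Prop :=
  ∀ i j, i < j → mu j < mu i ∨ (mu i = 0 ∧ mu j = 0)

/-- the set of nonzero values -/
def St {b : ℕ} (mu : Fin b → ℕ) : Finset ℕ := (univ.filter fun i => mu i ≠ 0).image mu

/-- the number of larger elements -/
def rk (S : Finset ℕ) (x : ℕ) : ℕ := (S.filter fun y => x < y).card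

lemma mem_St {b : ℕ} {mu : Fin b → ℕ} {x : ℕ} : x ∈ St mu ↔ ∃ i, mu i ≠ 0 ∧ mu i = x := by
  simp [St]

lemma rk_lt {S : Finset ℕ} {x y : ℕ} (hy : y ∈ S) (h : x < y) : rk S y < rk S x := by
  unfold rk
  apply card_lt_card
  rw [ssubset_iff_of_subset]
  · exact ⟨y, by simp [hy, h], by simp⟩
  · intro z hz
    simp only [mem_filter] at hz ⊢
    exact ⟨hz.1, h.trans hz.2⟩

lemma rk_inj {S : Finset ℕ} {x y : ℕ} (hx : x ∈ S) (hy : y ∈ S) (h : rk S x = rk S y) : x = y := by
  rcases lt_trichotomy x y with h1 | h1 | h1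
  · have := rk_lt hy h1; omega
  · exact h1
  · have := rk_lt hx h1; omega

lemma rk_lt_card {S : Finset ℕ} {x : ℕ} (hx : x ∈ S) : rk S x < S.card := by
  unfold rk
  apply card_lt_card
  rw [ssubset_iff_of_subset (filter_subset _ _)]
  exact ⟨x, hx, by simp⟩

lemma exists_rk {S : Finset ℕ} {i : ℕ} (hi : i < S.card) : ∃ x ∈ S, rk S x = i := by
  have h1 : S.image (rk S) ⊆ range S.card := by
    intro z hz
    rw [mem_image] at hz
    obtain ⟨x, hx, rfl⟩ := hz
    exact mem_range.mpr (rk_lt_card hx)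
  have h2 : (S.image (rk S)).card = S.card :=
    card_image_of_injOn fun x hx y hy h => rk_inj hx hy h
  have h3 : S.image (rk S) = range S.card :=
    eq_of_subset_of_card_le h1 (by rw [h2, card_range])
  have h4 : i ∈ S.image (rk S) := by rw [h3]; exact mem_range.mpr hi
  rw [mem_image] at h4
  exact h4

lemma dc_lt {b : ℕ} {mu : Fin b → ℕ} (h : Dc mu) {i j : Fin b} (hij : i < j) (hj : mu j ≠ 0) :
    mu j < mu i := by
  rcases h i j hij with h1 | h1
  · exact h1
  · exact absurd h1.2 hj

lemma dc_le {b : ℕ} {mu : Fin b → ℕ} (h : Dc mu) {i j : Fin b} (hij : i ≤ j) :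
    mu j ≤ mu i := by
  rcases eq_or_lt_of_le hij with rfl | h0
  · exact le_rfl
  · rcases h i j h0 with h1 | h1
    · exact h1.le
    · rw [h1.2]; exact Nat.zero_le _

lemma rk_St {b : ℕ} {mu : Fin b → ℕ} (h : Dc mu) {i : Fin b} (hi : mu i ≠ 0) :
    rk (St mu) (mu i) = i := by
  have h1 : (St mu).filter (fun y => mu i < y) = (Iio i).image mu := by
    ext y
    simp only [mem_filter, mem_image, mem_Iio, mem_St]
    constructor
    · rintro ⟨⟨j, hj, rfl⟩, hy⟩
      refine ⟨j, ?_, rfl⟩
      by_contra hc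
      have := dc_le h (not_lt.mp hc)
      omega
    · rintro ⟨j, hj, rfl⟩
      have := dc_lt h hj hi
      exact ⟨⟨j, by omega, rfl⟩, this⟩
  unfold rk
  rw [h1, card_image_of_injOn, Fin.card_Iio]
  intro x hx y hy hxy
  simp only [coe_Iio, Set.mem_Iio] at hx hy
  rcases lt_trichotomy x y with h2 | h2 | h2
  · have h3 := dc_lt h hy hi
    have h4 := dc_lt h h2 (by omega)
    omega
  · exact h2
  · have h3 := dc_lt h hx hi
    have h4 := dc_lt h h2 (by omega)
    omega

lemma St_inj {b : ℕ} {mu mu' : Fin b → ℕ} (h : Dc mu) (h' : Dc mu') (hS : St mu = St mu') :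
    mu = mu' := by
  have key : ∀ {mu mu' : Fin b → ℕ}, Dc mu → Dc mu' → St mu = St mu' → ∀ i, mu i ≠ 0 →
      mu i = mu' i := by
    intro mu mu' h h' hS i hi
    have h1 : mu i ∈ St mu' := by rw [← hS]; exact mem_St.mpr ⟨i, hi, rfl⟩
    obtain ⟨j, hj, hji⟩ := mem_St.mp h1
    have h2 := rk_St h hi
    have h3 := rk_St h' hj
    rw [hji, ← hS, h2] at h3
    have h4 : i = j := Fin.ext h3
    rw [← hji, h4]
  funext i
  by_cases hi : mu i = 0
  · by_cases hi' : mu' i = 0
    · rw [hi, hi']
    · exact (key h' h hS.symm i hi').symm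
  · exact key h h' hS i hi

lemma sum_St {b : ℕ} {mu : Fin b → ℕ} (h : Dc mu) : ∑ x ∈ St mu, x = ∑ i, mu i := by
  unfold St
  rw [sum_image]
  · rw [sum_filter]
    refine sum_congr rfl fun i _ => ?_
    by_cases hi : mu i = 0 <;> simp [hi]
  · intro x hx y hy hxy
    simp only [coe_filter, mem_univ, true_and, Set.mem_ofPred_eq] at hx hy
    rcases lt_trichotomy x y with h2 | h2 | h2
    · have := dc_lt h h2 hy; omega
    · exact h2
    · have := dc_lt h h2 hx; omega

/-- the element of rank `i`, or `0` -/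
noncomputable def el (S : Finset ℕ) (i : ℕ) : ℕ :=
  if h : ∃ x ∈ S, rk S x = i then h.choose else 0

lemma el_spec {S : Finset ℕ} {i : ℕ} (hi : i < S.card) : el S i ∈ S ∧ rk S (el S i) = i := by
  have h := exists_rk hi
  unfold el
  rw [dif_pos h]
  exact h.choose_spec

lemma el_zero {S : Finset ℕ} {i : ℕ} (hi : ¬ i < S.card) : el S i = 0 := by
  unfold el
  rw [dif_neg]
  rintro ⟨x, hx, rfl⟩
  exact hi (rk_lt_card hx)

end BRIx

open BRIx Finset in
theorem t_BRI : S_BRI := by
  intro b lam hb hanti hpos n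
  set lam' : ℕ → ℕ := fun i => if h : i < b then lam ⟨i, h⟩ else 0 with hlam'
  have hl : ∀ i : Fin b, lam' i = lam i := by
    intro i
    simp only [hlam', i.2, dif_pos]
  have hl0 : ∀ i : Fin b, lam i ≤ lam' 0 := by
    intro i
    have h0 : lam' 0 = lam ⟨0, by omega⟩ := by
      simp only [hlam']; rw [dif_pos (by omega : 0 < b)]
    rw [h0]
    exact hanti.antitone (Fin.mk_le_of_le_val (Nat.zero_le _))
  unfold A cnt
  set F : Finset (Finset ℕ) := ((Icc 1 (lam' 0)).powerset).filter (fun S : Finset ℕ => S.card ≤ b ∧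
    (∀ i < b, (S.filter (fun x => lam' i < x)).card ≤ i) ∧ ∑ x ∈ S, (x : ℤ) = (n : ℤ)) with hF
  have hmemF : ∀ S, S ∈ F ↔ S ⊆ Icc 1 (lam' 0) ∧ S.card ≤ b ∧
      (∀ i < b, (S.filter (fun x => lam' i < x)).card ≤ i) ∧ ∑ x ∈ S, x = n := by
    intro S
    rw [hF, mem_filter, mem_powerset]
    have : (∑ x ∈ S, (x : ℤ) = (n : ℤ)) ↔ ∑ x ∈ S, x = n := by
      rw [← Nat.cast_sum]; exact Nat.cast_inj
    rw [this]
  norm_cast
  have hcardF : F.card = Nat.card F := by simp
  rw [hcardF]
  have hok : ∀ mu : {mu : Fin b → ℕ // (∀ i, mu i ≤ lam i) ∧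
      (∀ i j, i < j → mu j < mu i ∨ (mu i = 0 ∧ mu j = 0)) ∧ ∑ i, mu i = n}, St mu.1 ∈ F := by
    rintro ⟨mu, h1, h2, h3⟩
    have h2' : Dc mu := h2
    rw [hmemF]
    refine ⟨?_, ?_, ?_, ?_⟩
    · intro x hx
      obtain ⟨i, hi, rfl⟩ := mem_St.mp hx
      rw [mem_Icc]
      exact ⟨Nat.one_le_iff_ne_zero.mpr hi, (h1 i).trans (hl0 i)⟩
    · refine card_image_le.trans ((card_filter_le _ _).trans ?_)
      simp
    · intro i hi
      have hsub : (St mu).filter (fun x => lam' i < x) ⊆ (Iio (⟨i, hi⟩ : Fin b)).image mu := by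
        intro y hy
        rw [mem_filter] at hy
        obtain ⟨j, hj, rfl⟩ := mem_St.mp hy.1
        rw [mem_image]
        refine ⟨j, ?_, rfl⟩
        rw [mem_Iio]
        by_contra hc
        have h4 : lam j ≤ lam ⟨i, hi⟩ := hanti.antitone (not_lt.mp hc)
        have h5 := h1 j
        have h6 : lam' i = lam ⟨i, hi⟩ := hl ⟨i, hi⟩
        have h7 := hy.2
        omega
      refine (card_le_card hsub).trans (card_image_le.trans ?_)
      rw [Fin.card_Iio]
    · rw [sum_St h2']; exact h3
  refine Nat.card_eq_of_bijective (fun mu => (⟨St mu.1, hok mu⟩ : F)) ⟨?_, ?_⟩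
  · intro mu mu' h
    have h1 : St mu.1 = St mu'.1 := congrArg Subtype.val h
    exact Subtype.ext (St_inj mu.2.2.1 mu'.2.2.1 h1)
  · rintro ⟨S, hS⟩
    have hS' := (hmemF S).mp hS
    obtain ⟨s1, s2, s3, s4⟩ := hS'
    set mu : Fin b → ℕ := fun i => el S i with hmu
    have hpos' : ∀ x ∈ S, x ≠ 0 := by
      intro x hx
      have := (mem_Icc.mp (s1 hx)).1
      omega
    have hdc : Dc mu := by
      intro i j hij
      by_cases hj : (j : ℕ) < S.card
      · left
        have hi : (i : ℕ) < S.card := lt_trans hij hj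
        obtain ⟨a1, a2⟩ := el_spec hi
        obtain ⟨b1, b2⟩ := el_spec hj
        show el S j < el S i
        by_contra hc
        push Not at hc
        rcases eq_or_lt_of_le hc with h0 | h0
        · rw [h0, b2] at a2
          have : (i : ℕ) < j := hij
          omega
        · have h5 := rk_lt b1 h0
          rw [a2, b2] at h5
          have : (i : ℕ) < j := hij
          omega
      · have hj0 : mu j = 0 := el_zero hj
        by_cases hi : mu i = 0
        · exact Or.inr ⟨hi, hj0⟩
        · left; omega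
    have hSt : St mu = S := by
      ext x
      rw [mem_St]
      constructor
      · rintro ⟨i, hi, rfl⟩
        by_cases h : (i : ℕ) < S.card
        · exact (el_spec h).1
        · exact absurd (el_zero h) hi
      · intro hx
        have h1 := rk_lt_card hx
        obtain ⟨a1, a2⟩ := el_spec h1
        have h2 : el S (rk S x) = x := rk_inj a1 hx a2
        refine ⟨⟨rk S x, lt_of_lt_of_le h1 s2⟩, ?_, ?_⟩
        · show el S (rk S x) ≠ 0
          rw [h2]; exact hpos' x hx
        · exact h2
    have hle : ∀ i, mu i ≤ lam i := by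
      intro i
      by_cases h : (i : ℕ) < S.card
      · obtain ⟨a1, a2⟩ := el_spec h
        show el S i ≤ lam i
        by_contra hc
        push Not at hc
        have h3 := s3 i i.2
        rw [hl i] at h3
        have h4 : insert (el S i) (S.filter fun y => el S i < y) ⊆ S.filter fun x => lam i < x := by
          intro y hy
          rw [mem_insert, mem_filter] at hy
          rw [mem_filter]
          rcases hy with rfl | hy
          · exact ⟨a1, hc⟩
          · exact ⟨hy.1, hc.trans hy.2⟩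
        have h5 := card_le_card h4
        rw [card_insert_of_notMem (by simp)] at h5
        have h6 : (S.filter fun y => el S i < y).card = i := a2
        omega
      · have : mu i = 0 := el_zero h
        omega
    have hsum : ∑ i, mu i = n := by
      rw [← sum_St hdc, hSt]; exact s4
    exact ⟨⟨mu, hle, hdc, hsum⟩, Subtype.ext hSt⟩

end Pool.Agent.R653.UF
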