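import Mathlib
import Pool.Agent.R653.UF.Stm

namespace Pool.Agent.R653.UF

open Finset

namespace DecAux

theorem sum_E (l n : ℕ) (x : ℤ) : ∑ k ∈ range (n + 1), E l k x =
    ((((Icc 1 l).powerset).filter (fun R : Finset ℕ => R.card ≤ n ∧
      ∑ y ∈ R, (y : ℤ) = x)).card : ℤ) := by
  have h := Finset.card_eq_sum_card_fiberwise (f := fun R : Finset ℕ => R.card)
    (s := ((Icc 1 l).powerset).filter (fun R : Finset ℕ => R.card ≤ n ∧ ∑ y ∈ R, (y : ℤ) = x))
    (t := range (n + 1)) (by
      intro R hR
      have hR' := Finset.mem_coe.1 hR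
      rw [mem_filter] at hR'
      rw [Finset.mem_coe, mem_range]
      show R.card < n + 1
      omega)
  rw [h]
  push_cast
  refine Finset.sum_congr rfl fun k hk => ?_
  unfold E
  congr 2
  ext R
  rw [mem_range] at hk
  simp only [mem_filter, mem_powersetCard, mem_powerset]
  constructor
  · rintro ⟨⟨h1, h2⟩, h3⟩
    exact ⟨⟨h1, by omega, h3⟩, h2⟩
  · rintro ⟨⟨h1, _, h3⟩, h2⟩
    exact ⟨⟨h1, h2⟩, h3⟩

end DecAux

open DecAux in
theorem t_DEC : S_DEC := by
  intro b lam hb hdec m
  have hle : ∀ i < b, lam (b - 1) ≤ lam i := by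
    intro i hi
    rcases Nat.lt_or_ge i (b - 1) with h | h
    · exact (hdec.1 i (b - 1) h (by omega)).le
    · have : i = b - 1 := by omega
      rw [this]
  generalize hl : lam (b - 1) = l at hle ⊢
  have hl0 : l ≤ lam 0 := hle 0 (by omega)
  unfold A
  rw [Finset.card_eq_sum_card_fiberwise
    (f := fun S : Finset ℕ => S.filter (fun x => l < x))
    (t := ((Icc (l + 1) (lam 0)).powerset).filter
      (fun T : Finset ℕ => ∀ i < b, (T.filter (fun x => lam i < x)).card ≤ i)) (by
      intro S hS
      have hS' := Finset.mem_coe.1 hS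
      rw [mem_filter, mem_powerset] at hS'
      obtain ⟨h1, _, h3, _⟩ := hS'
      rw [Finset.mem_coe, mem_filter, mem_powerset]
      refine ⟨?_, ?_⟩
      · intro x hx
        rw [mem_filter] at hx
        have h4 := h1 hx.1
        rw [mem_Icc] at h4 ⊢
        omega
      · intro i hi
        refine le_trans (card_le_card ?_) (h3 i hi)
        exact filter_subset_filter _ (filter_subset _ _))]
  push_cast
  refine Finset.sum_congr rfl fun T hT => ?_
  rw [mem_filter, mem_powerset] at hT
  obtain ⟨hT1, hT2⟩ := hT
  have hTb : T.card ≤ b - 1 := by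
    have h1 := hT2 (b - 1) (by omega)
    have h2 : T.filter (fun x => lam (b - 1) < x) = T := by
      rw [filter_eq_self]
      intro x hx
      have h4 := hT1 hx
      rw [mem_Icc] at h4
      omega
    rwa [h2] at h1
  rw [sum_E]
  congr 1
  refine Finset.card_bij' (fun S _ => S \ T) (fun R _ => T ∪ R) ?_ ?_ ?_ ?_
  · intro S hS
    rw [mem_filter, mem_filter, mem_powerset] at hS
    obtain ⟨⟨h1, h2, h3, h4⟩, h5⟩ := hS
    have hTS : T ⊆ S := by
      rw [← h5]
      exact filter_subset _ _
    rw [mem_filter, mem_powerset]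
    have h6 := card_sdiff_add_card_eq_card hTS
    have h7 := Finset.sum_sdiff (f := fun x : ℕ => (x : ℤ)) hTS
    refine ⟨?_, by omega, by linarith⟩
    intro x hx
    rw [mem_sdiff] at hx
    have h8 := h1 hx.1
    have h9 : ¬ l < x := by
      intro h
      apply hx.2
      rw [← h5, mem_filter]
      exact ⟨hx.1, h⟩
    rw [mem_Icc] at h8 ⊢
    omega
  · intro R hR
    rw [mem_filter, mem_powerset] at hR
    obtain ⟨h1, h2, h3⟩ := hR
    have hdisj : Disjoint T R := by
      rw [Finset.disjoint_left]
      intro x hx hx'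
      have h4 := hT1 hx
      have h5 := h1 hx'
      rw [mem_Icc] at h4 h5
      omega
    have hfil : ∀ c, l ≤ c → (T ∪ R).filter (fun x => c < x) = T.filter (fun x => c < x) := by
      intro c hc
      rw [filter_union]
      have : R.filter (fun x => c < x) = ∅ := by
        rw [filter_eq_empty_iff]
        intro x hx
        have h5 := h1 hx
        rw [mem_Icc] at h5
        omega
      rw [this, union_empty]
    rw [mem_filter, mem_filter, mem_powerset]
    refine ⟨⟨?_, ?_, ?_, ?_⟩, ?_⟩
    · intro x hx
      rw [mem_union] at hx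
      rw [mem_Icc]
      rcases hx with hx | hx
      · have h4 := hT1 hx
        rw [mem_Icc] at h4
        omega
      · have h4 := h1 hx
        rw [mem_Icc] at h4
        omega
    · rw [card_union_of_disjoint hdisj]
      omega
    · intro i hi
      rw [hfil _ (hle i hi)]
      exact hT2 i hi
    · rw [sum_union hdisj]
      linarith
    · rw [hfil l le_rfl, filter_eq_self]
      intro x hx
      have h4 := hT1 hx
      rw [mem_Icc] at h4
      omega
  · intro S hS
    rw [mem_filter, mem_filter, mem_powerset] at hS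
    obtain ⟨_, h5⟩ := hS
    have hTS : T ⊆ S := by
      rw [← h5]
      exact filter_subset _ _
    exact union_sdiff_of_subset hTS
  · intro R hR
    rw [mem_filter, mem_powerset] at hR
    obtain ⟨h1, _, _⟩ := hR
    have hdisj : Disjoint T R := by
      rw [Finset.disjoint_left]
      intro x hx hx'
      have h4 := hT1 hx
      have h5 := h1 hx'
      rw [mem_Icc] at h4 h5
      omega
    exact union_sdiff_cancel_left hdisj

end Pool.Agent.R653.UF
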