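import Mathlib
import Pool.Agent.R653.UF.Stm

namespace Pool.Agent.R653.UF
open Finset

namespace FinAux

/-- The purely order theoretic part. -/
theorem unimodal_of (F : ℤ → ℤ) (f : ℕ → ℕ) (hf : ∀ n, (f n : ℤ) = F (n : ℤ)) (l M S : ℤ)
    (hl : 1 ≤ l) (hM : 9 * l ≤ 4 * M)
    (hbot : ∀ m : ℤ, m < l → F m ≤ F (m + 1))
    (h1 : ∀ m : ℤ, l ≤ 8 * m → 8 * m + l ≤ 4 * M → 0 ≤ fd F m)
    (h2 : ∀ m : ℤ, 4 * M + l ≤ 8 * m → 8 * m + l ≤ 8 * M → fd F m < 0)
    (h3 : ∀ m : ℤ, 4 * M ≤ 8 * m + 2 * l → 8 * m ≤ 4 * M + 2 * l → fd (fd F) m < 0)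
    (htop : ∀ m : ℤ, S ≤ m → F (m + 1) ≤ F m)
    (hS : 8 * S ≤ 8 * M - l) :
    Unimodal f := by
  have hex : ∃ n : ℕ, fd F (n : ℤ) < 0 := by
    refine ⟨(M - l).toNat, ?_⟩
    have : (((M - l).toNat : ℕ) : ℤ) = M - l := Int.toNat_of_nonneg (by linarith)
    rw [this]
    exact h2 _ (by linarith) (by linarith)
  classical
  let t := Nat.find hex
  have ht : fd F (t : ℤ) < 0 := Nat.find_spec hex
  have hlt : ∀ n < t, 0 ≤ fd F (n : ℤ) := by
    intro n hn
    exact not_lt.mp (Nat.find_min hex hn)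
  have hlow : ∀ m : ℤ, 8 * m + l ≤ 4 * M → 0 ≤ fd F m := by
    intro m hm
    by_cases h : l ≤ 8 * m
    · exact h1 m h hm
    · push Not at h
      have : m < l := by
        by_contra hh
        push Not at hh
        linarith
      have := hbot m this
      unfold fd
      linarith
  have htl : 4 * M < 8 * (t : ℤ) + l := by
    by_contra h
    push Not at h
    have := hlow _ h
    linarith
  have hge : ∀ d : ℕ, fd F ((t + d : ℕ) : ℤ) ≤ 0 := by
    intro d
    induction d with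
    | zero => simpa using ht.le
    | succ d ih =>
      by_cases h : 4 * M + l ≤ 8 * (((t + (d + 1) : ℕ) : ℤ))
      · by_cases h' : 8 * (((t + (d + 1) : ℕ) : ℤ)) + l ≤ 8 * M
        · exact (h2 _ h h').le
        · push Not at h'
          have hh : S ≤ (((t + (d + 1) : ℕ) : ℤ)) := by
            by_contra hc
            push Not at hc
            linarith
          have := htop _ hh
          unfold fd
          linarith
      · push Not at h
        have e : (((t + (d + 1) : ℕ) : ℤ)) = ((t + d : ℕ) : ℤ) + 1 := by push_cast; ring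
        rw [e] at h ⊢
        have hd : (0 : ℤ) ≤ (d : ℤ) := by positivity
        have htd : (((t + d : ℕ) : ℤ)) = (t : ℤ) + (d : ℤ) := by push_cast; ring
        have h3' := h3 ((t + d : ℕ) : ℤ) (by rw [htd]; linarith) (by linarith)
        have : fd (fd F) ((t + d : ℕ) : ℤ) = fd F (((t + d : ℕ) : ℤ) + 1) - fd F ((t + d : ℕ) : ℤ) := rfl
        rw [this] at h3'
        linarith
  refine ⟨t, ?_, ?_⟩
  · intro n hn
    have := hlt n hn
    unfold fd at this
    have e1 := hf n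
    have e2 := hf (n + 1)
    push_cast at e2
    have : (f n : ℤ) ≤ (f (n + 1) : ℤ) := by rw [e1, e2]; linarith
    exact_mod_cast this
  · intro n hn
    obtain ⟨d, rfl⟩ := Nat.exists_eq_add_of_le hn
    have := hge d
    unfold fd at this
    have e1 := hf (t + d)
    have e2 := hf (t + d + 1)
    push_cast at e1 e2 this
    have : (f (t + d + 1) : ℤ) ≤ (f (t + d) : ℤ) := by rw [e1, e2]; linarith
    exact_mod_cast this

theorem pos_of (K X Y P : ℤ) (hK : 0 < K) (h : P ≤ K * Y) (h' : K * |X - Y| < P) : 0 ≤ X := by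
  by_contra hc
  push Not at hc
  have hab := neg_abs_le (X - Y)
  have h2 : K * (-|X - Y|) ≤ K * (X - Y) := mul_le_mul_of_nonneg_left hab hK.le
  have h3 : K * X < 0 := mul_neg_of_pos_of_neg hK hc
  have e1 : K * (-|X - Y|) = -(K * |X - Y|) := by ring
  have e2 : K * (X - Y) = K * X - K * Y := by ring
  linarith

theorem neg_of (K X Y P : ℤ) (hK : 0 < K) (h : P ≤ -(K * Y)) (h' : K * |X - Y| < P) : X < 0 := by
  by_contra hc
  push Not at hc
  have hab := le_abs_self (X - Y)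
  have h2 : K * (X - Y) ≤ K * |X - Y| := mul_le_mul_of_nonneg_left hab hK.le
  have h3 : 0 ≤ K * X := mul_nonneg hK.le hc
  have e2 : K * (X - Y) = K * X - K * Y := by ring
  linarith

theorem rng (b l m : ℤ) (hb5 : 5 ≤ b) (hl5 : 5 ≤ l) (h2 : 8 * m ≤ 4 * (b * l + b - 1) + 2 * l) :
    m + 2 < (b - 2) * (l + 1) := by
  nlinarith [mul_nonneg (sub_nonneg.2 hb5) (sub_nonneg.2 hl5)]

theorem cov (b l w s : ℤ) (hb5 : 5 ≤ b) (hs : s ≤ b * (l + w)) (h8 : 8 * b * w ≤ 7 * l) :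
    8 * (s - l) ≤ 8 * (b * l + b - 1) - l := by
  nlinarith

theorem nineL (b l : ℤ) (hb5 : 5 ≤ b) (hl5 : 5 ≤ l) : 9 * l ≤ 4 * (b * l + b - 1) := by
  nlinarith

end FinAux

open FinAux in
theorem t_FIN (hR : S_REC) (hP : S_PERT) (hB : S_BOT) (hT : S_TOP) (hI : S_BRI) : S_FIN := by
  intro b hb
  obtain ⟨K, l0, hK, hrec⟩ := hR b hb
  obtain ⟨C, hC, hpert⟩ := hP b hb
  -- natural constants
  obtain ⟨C', hC'⟩ : ∃ C' : ℕ, (C' : ℤ) = (K : ℤ) * C :=
    ⟨((K : ℤ) * C).toNat, Int.toNat_of_nonneg (by positivity)⟩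
  set P : ℕ := 2 * (C' + 1) + 8 * b with hPdef
  have hPpos : (0 : ℝ) < (P : ℝ) := by
    have : 0 < P := by omega
    exact_mod_cast this
  refine ⟨1 / (2 * (P : ℝ)), by positivity, 2 * (l0 + P + 5), ?_⟩
  intro lam hanti hpos hN hnear
  set lamN : ℕ → ℕ := fun i => if h : i < b then lam ⟨i, h⟩ else 0 with hlamN
  have hval : ∀ i (h : i < b), lamN i = lam ⟨i, h⟩ := by
    intro i h
    simp only [hlamN, h, dif_pos]
  have hdec : Dec b lamN := by
    refine ⟨?_, ?_⟩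
    · intro i j hij hj
      rw [hval i (by omega), hval j hj]
      exact hanti (by simpa using hij)
    · rw [hval (b - 1) (by omega)]
      exact hpos _
  have hl_eq : lamN (b - 1) = lam ⟨b - 1, by omega⟩ := hval _ _
  have hL_eq : lamN 0 = lam ⟨0, by omega⟩ := hval _ _
  set l : ℕ := lamN (b - 1) with hldef
  set L : ℕ := lamN 0 with hLdef
  rw [← hL_eq] at hN
  rw [← hL_eq, ← hl_eq] at hnear
  have hlL : l < L := hdec.1 0 (b - 1) (by omega) (by omega)
  obtain ⟨w, hw⟩ := Nat.exists_eq_add_of_le hlL.le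
  -- inequalities
  have hP1 : (1 : ℝ) ≤ (P : ℝ) := by
    have : 1 ≤ P := by omega
    exact_mod_cast this
  have hLr : (L : ℝ) = (l : ℝ) + (w : ℝ) := by rw [hw]; push_cast; ring
  have hL0 : (0 : ℝ) < (L : ℝ) := by
    have : 0 < L := by omega
    exact_mod_cast this
  have hmul : (2 * (P : ℝ)) * (w : ℝ) < (L : ℝ) := by
    have h1 : (1 - 1 / (2 * (P : ℝ))) * (L : ℝ) < (l : ℝ) := hnear
    have h2 : (w : ℝ) < 1 / (2 * (P : ℝ)) * (L : ℝ) := by
      have : (w : ℝ) = (L : ℝ) - (l : ℝ) := by rw [hLr]; ring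
      rw [this]; nlinarith
    have h3 : (2 * (P : ℝ)) * (w : ℝ) < (2 * (P : ℝ)) * (1 / (2 * (P : ℝ)) * (L : ℝ)) :=
      mul_lt_mul_of_pos_left h2 (by positivity)
    have h4 : (2 * (P : ℝ)) * (1 / (2 * (P : ℝ)) * (L : ℝ)) = (L : ℝ) := by
      field_simp
    linarith
  have hmulN : 2 * P * w < L := by exact_mod_cast hmul
  have hPw : P * w < l := by
    have h1 : 1 * w ≤ P * w := Nat.mul_le_mul_right _ (by omega)
    have h2 : 2 * P * w = P * w + P * w := by ring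
    omega
  have hl2 : L < 2 * l := by
    have h1 : 1 * w ≤ P * w := Nat.mul_le_mul_right _ (by omega)
    omega
  have hlbig : l0 + P + 5 ≤ l := by omega
  have hl0 : l0 ≤ l := by omega
  have hwl : w ≤ l := by
    have h1 : 1 * w ≤ P * w := Nat.mul_le_mul_right _ (by omega)
    omega
  have hkey : (C' + 1) * (w + 1) ≤ l := by
    have h1 : 2 * (C' + 1) * w ≤ P * w := Nat.mul_le_mul_right _ (by omega)
    have h2 : 2 * (C' + 1) ≤ P := by omega
    have h3 : 2 * ((C' + 1) * (w + 1)) = 2 * (C' + 1) * w + 2 * (C' + 1) := by ring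
    omega
  have h8 : 8 * b * w ≤ 7 * l := by
    have h1 : 8 * b * w ≤ P * w := Nat.mul_le_mul_right _ (by omega)
    omega
  have hkeyZ : (K : ℤ) * C * ((w : ℤ) + 1) < (l : ℤ) := by
    rw [← hC']
    have : (((C' + 1) * (w + 1) : ℕ) : ℤ) ≤ (l : ℤ) := by exact_mod_cast hkey
    push_cast at this
    nlinarith
  have hlpos : (0 : ℤ) < (l : ℤ) := by
    have : 0 < l := by omega
    exact_mod_cast this
  have hKpos : (0 : ℤ) < (K : ℤ) := by exact_mod_cast hK
  have hbpow : (l : ℤ) ^ (b - 2) = (l : ℤ) * (l : ℤ) ^ (b - 3) := by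
    rw [← pow_succ']; congr 1; omega
  have hbpow' : (l : ℤ) ^ (b - 3) = (l : ℤ) * (l : ℤ) ^ (b - 4) := by
    rw [← pow_succ']; congr 1; omega
  have hp3 : (0 : ℤ) < (l : ℤ) ^ (b - 3) := by positivity
  have hp4 : (0 : ℤ) < (l : ℤ) ^ (b - 4) := by positivity
  have hpE := hpert lamN hdec w hw hwl
  rw [← hldef] at hpE
  have hrE := hrec l hl0
  have hcomp1 : ∀ m : ℤ, (K : ℤ) * |fd (A b lamN) m - fd (E l b) m| < (l : ℤ) ^ (b - 2) := by
    intro m
    have h := (hpE m).1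
    calc (K : ℤ) * |fd (A b lamN) m - fd (E l b) m|
        ≤ (K : ℤ) * (C * ((w : ℤ) + 1) * (l : ℤ) ^ (b - 3)) := mul_le_mul_of_nonneg_left h hKpos.le
      _ = ((K : ℤ) * C * ((w : ℤ) + 1)) * (l : ℤ) ^ (b - 3) := by ring
      _ < (l : ℤ) * (l : ℤ) ^ (b - 3) := mul_lt_mul_of_pos_right hkeyZ hp3
      _ = (l : ℤ) ^ (b - 2) := hbpow.symm
  have hcomp2 : ∀ m : ℤ, m + 2 < ((b : ℤ) - 2) * ((l : ℤ) + 1) →
      (K : ℤ) * |fd (fd (A b lamN)) m - fd (fd (E l b)) m| < (l : ℤ) ^ (b - 3) := by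
    intro m hm
    have h := (hpE m).2 hm
    calc (K : ℤ) * |fd (fd (A b lamN)) m - fd (fd (E l b)) m|
        ≤ (K : ℤ) * (C * ((w : ℤ) + 1) * (l : ℤ) ^ (b - 4)) := mul_le_mul_of_nonneg_left h hKpos.le
      _ = ((K : ℤ) * C * ((w : ℤ) + 1)) * (l : ℤ) ^ (b - 4) := by ring
      _ < (l : ℤ) * (l : ℤ) ^ (b - 4) := mul_lt_mul_of_pos_right hkeyZ hp4
      _ = (l : ℤ) ^ (b - 3) := hbpow'.symm
  have hb5 : (5 : ℤ) ≤ (b : ℤ) := by exact_mod_cast hb
  have hl5 : (5 : ℤ) ≤ (l : ℤ) := by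
    have : 5 ≤ l := by omega
    exact_mod_cast this
  refine unimodal_of (A b lamN) (cnt lam) (fun n => ?_) (l : ℤ)
    ((b : ℤ) * (l : ℤ) + (b : ℤ) - 1) ((∑ i ∈ range b, (lamN i : ℤ)) - (l : ℤ)) (by linarith)
    (nineL _ _ hb5 hl5) ?_ ?_ ?_ ?_ ?_ ?_
  · exact hI b lam (by omega) hanti hpos n
  · intro m hm
    exact hB b lamN (by omega) hdec m (by
      have : (l : ℤ) < (L : ℤ) := by exact_mod_cast hlL
      exact lt_trans hm this)
  · intro m h1 h2
    have h := (hrE m).1 h1 h2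
    exact pos_of _ _ _ _ hKpos h (hcomp1 m)
  · intro m h1 h2
    have h := (hrE m).2.1 h1 h2
    exact neg_of _ _ _ _ hKpos h (hcomp1 m)
  · intro m h1 h2
    have h := (hrE m).2.2 h1 h2
    exact neg_of _ _ _ _ hKpos h (hcomp2 m (rng _ _ _ hb5 hl5 h2))
  · intro m hm
    exact hT b lamN (by omega) hdec m hm
  · have hsum : ∑ i ∈ range b, (lamN i : ℤ) ≤ (b : ℤ) * ((l : ℤ) + (w : ℤ)) := by
      calc ∑ i ∈ range b, (lamN i : ℤ) ≤ ∑ i ∈ range b, ((l : ℤ) + (w : ℤ)) := by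
            apply Finset.sum_le_sum
            intro i hi
            rw [Finset.mem_range] at hi
            have h0 : lamN i ≤ lamN 0 := by
              rcases Nat.eq_zero_or_pos i with h | h
              · rw [h]
              · exact (hdec.1 0 i h hi).le
            have : lamN i ≤ l + w := by
              calc lamN i ≤ lamN 0 := h0
                _ = L := rfl
                _ = l + w := hw
            exact_mod_cast this
        _ = (b : ℤ) * ((l : ℤ) + (w : ℤ)) := by simp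
    have h8' : 8 * (b : ℤ) * (w : ℤ) ≤ 7 * (l : ℤ) := by exact_mod_cast h8
    exact cov _ _ _ _ hb5 hsum h8'

end Pool.Agent.R653.UF
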