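import Mathlib
import Pool.Agent.R653.UF.Stm

/-!
# UF-LOW: lower bound for `D` (MP_71be06_co)
-/

set_option autoImplicit false

namespace Pool.Agent.R653.UF

open Finset

namespace LOWaux

theorem D_succ (l k : ℕ) (m : ℤ) : D l (k + 1) m = ∑ y ∈ Ico (m - (l : ℤ)) m, D l k y := by
  have h1 : D l (k + 1) m = ∑ j ∈ Icc 1 l, D l k (m - (j : ℤ)) := by
    unfold D
    simp only [c]
    rw [← Finset.sum_sub_distrib]
    refine Finset.sum_congr rfl fun j _ => ?_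
    congr 2
    ring
  rw [h1]
  refine Finset.sum_bij' (fun j _ => m - (j : ℤ)) (fun y _ => (m - y).toNat) ?_ ?_ ?_ ?_ ?_
  · intro j hj
    rw [mem_Icc] at hj
    rw [mem_Ico]
    omega
  · intro y hy
    rw [mem_Ico] at hy
    rw [mem_Icc]
    omega
  · intro j hj
    simp
  · intro y hy
    rw [mem_Ico] at hy
    omega
  · intro j hj
    rfl

theorem refl_zero (f : ℤ → ℤ) (M a : ℤ) (hf : ∀ y, f (M - y) = - f y) :
    ∑ y ∈ Ico (M - a + 1) a, f y = 0 := by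
  have h : ∑ y ∈ Ico (M - a + 1) a, f y = ∑ y ∈ Ico (M - a + 1) a, f (M - y) := by
    refine Finset.sum_bij' (fun y _ => M - y) (fun y _ => M - y) ?_ ?_ ?_ ?_ ?_
    · intro y hy
      rw [mem_Ico] at hy ⊢
      omega
    · intro y hy
      rw [mem_Ico] at hy ⊢
      omega
    · intro y hy
      simp
    · intro y hy
      simp
    · intro y hy
      simp
  simp only [hf, sum_neg_distrib] at h
  omega

theorem low_sum (f : ℤ → ℤ) (a b a' b' v K' : ℤ) (ha : a ≤ a') (hb : b' ≤ b) (hab : a' ≤ b')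
    (hK : 0 ≤ K') (h0 : ∀ y, a ≤ y → y < b → 0 ≤ f y)
    (h1 : ∀ y, a' ≤ y → y < b' → v ≤ K' * f y) :
    (b' - a') * v ≤ K' * ∑ y ∈ Ico a b, f y := by
  have h2 : ∑ y ∈ Ico a' b', f y ≤ ∑ y ∈ Ico a b, f y := by
    refine Finset.sum_le_sum_of_subset_of_nonneg ?_ ?_
    · intro y hy
      rw [mem_Ico] at hy ⊢
      omega
    · intro y hy _
      rw [mem_Ico] at hy
      exact h0 y hy.1 hy.2
  have h3 : ∑ y ∈ Ico a' b', v ≤ ∑ y ∈ Ico a' b', K' * f y := by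
    refine Finset.sum_le_sum fun y hy => ?_
    rw [mem_Ico] at hy
    exact h1 y hy.1 hy.2
  rw [sum_const, Int.card_Ico, nsmul_eq_mul, ← mul_sum, Int.toNat_of_nonneg (by omega)] at h3
  exact h3.trans (mul_le_mul_of_nonneg_left h2 hK)

theorem base (n : ℕ) (hn : 2 ≤ n) (l : ℕ) (hl : 1 ≤ l) (m : ℤ) (h1 : (l : ℤ) ≤ (n : ℤ) * m)
    (h2 : 2 * (n : ℤ) * m + 2 * (l : ℤ) ≤ (n : ℤ) * (((1 : ℕ) : ℤ) * ((l : ℤ) + 1) + (l : ℤ))) :
    (l : ℤ) ^ (1 - 1) ≤ ((1 : ℕ) : ℤ) * D l 1 m := by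
  have hn' : (2 : ℤ) ≤ n := by exact_mod_cast hn
  have hl' : (1 : ℤ) ≤ l := by exact_mod_cast hl
  have m1 : 1 ≤ m := by
    by_contra h
    have : m ≤ 0 := by omega
    nlinarith
  have m2 : m ≤ l := by
    by_contra h
    have h3 : (l : ℤ) + 1 ≤ m := by omega
    have h4 : (n : ℤ) * ((l : ℤ) + 1) ≤ n * m := mul_le_mul_of_nonneg_left h3 (by omega)
    push_cast at h2
    nlinarith
  have e1 : c l 1 m = 1 := by
    simp only [c]
    rw [Finset.sum_eq_single m.toNat]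
    · rw [if_pos]
      omega
    · intro j hj hne
      rw [if_neg]
      omega
    · intro h
      rw [mem_Icc] at h
      omega
  have e2 : c l 1 (m - l) = 0 := by
    simp only [c]
    refine Finset.sum_eq_zero fun j hj => ?_
    rw [mem_Icc] at hj
    rw [if_neg]
    omega
  unfold D
  rw [e1, e2]
  simp

theorem step (hA : S_ANTI) (k : ℕ) (hk : 1 ≤ k) (n : ℕ) (hn : 2 ≤ n) (K' l0 : ℕ)
    (ih : ∀ l : ℕ, l0 ≤ l → ∀ m : ℤ, (l : ℤ) ≤ ((4 * n : ℕ) : ℤ) * m →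
      2 * ((4 * n : ℕ) : ℤ) * m + 2 * (l : ℤ) ≤
        ((4 * n : ℕ) : ℤ) * ((k : ℤ) * ((l : ℤ) + 1) + (l : ℤ)) →
      (l : ℤ) ^ (k - 1) ≤ (K' : ℤ) * D l k m)
    (l : ℕ) (hl0 : l0 ≤ l) (hl : 2 * n ≤ l) (m : ℤ) (h1 : (l : ℤ) ≤ (n : ℤ) * m)
    (h2 : 2 * (n : ℤ) * m + 2 * (l : ℤ) ≤
      (n : ℤ) * (((k + 1 : ℕ) : ℤ) * ((l : ℤ) + 1) + (l : ℤ))) :
    (l : ℤ) ^ k ≤ ((4 * n * K' : ℕ) : ℤ) * D l (k + 1) m := by
  have hn' : (2 : ℤ) ≤ n := by exact_mod_cast hn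
  have hl' : 2 * (n : ℤ) ≤ l := by exact_mod_cast hl
  have hk' : (1 : ℤ) ≤ k := by exact_mod_cast hk
  have hlp : (0 : ℤ) < l := by omega
  obtain ⟨M, hM⟩ : ∃ M : ℤ, M = (k : ℤ) * ((l : ℤ) + 1) + (l : ℤ) := ⟨_, rfl⟩
  have hM2 : 2 * (l : ℤ) + 1 ≤ M := by
    rw [hM]
    nlinarith
  have h2' : 2 * (n : ℤ) * m + 2 * (l : ℤ) ≤ (n : ℤ) * (M + (l : ℤ) + 1) := by
    rw [hM]
    push_cast at h2
    linarith
  have hnM : (n : ℤ) * (2 * (l : ℤ) + 1) ≤ n * M := mul_le_mul_of_nonneg_left hM2 (by omega)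
  have hnl : (n : ℤ) * 1 ≤ n * l := mul_le_mul_of_nonneg_left (by omega) (by omega)
  have hnl2 : 2 * (l : ℤ) ≤ n * l := mul_le_mul_of_nonneg_right hn' hlp.le
  have anti : ∀ y, D l k (M - y) = - D l k y := fun y => by
    rw [hM]
    exact (hA l k hk y).1
  have nn : ∀ y, 2 * y ≤ M → 0 ≤ D l k y := fun y hy => by
    rw [hM] at hy
    exact (hA l k hk y).2 hy
  obtain ⟨b, hb, hb1, hb2, hb3⟩ : ∃ b : ℤ, D l (k + 1) m = ∑ y ∈ Ico (m - (l : ℤ)) b, D l k y ∧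
      2 * (b - 1) ≤ M ∧ (l : ℤ) ≤ 4 * n * (b - (m - l)) ∧
      2 * (l : ℤ) ≤ 4 * n * (b - 1) := by
    by_cases hc : 2 * (m - 1) ≤ M
    · refine ⟨m, D_succ l k m, hc, ?_, ?_⟩
      · nlinarith
      · nlinarith
    · refine ⟨M - m + 1, ?_, by omega, ?_, ?_⟩
      · rw [D_succ]
        have hle : 2 * m ≤ M + l + 1 := by
          by_contra h
          have h3 : M + l + 1 ≤ 2 * m := by omega
          have h4 : (n : ℤ) * (M + l + 1) ≤ n * (2 * m) :=
            mul_le_mul_of_nonneg_left h3 (by omega)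
          nlinarith
        have e1 : Ico (m - (l : ℤ)) m = Ico (m - (l : ℤ)) (M - m + 1) ∪ Ico (M - m + 1) m := by
          rw [Finset.Ico_union_Ico_eq_Ico] <;> omega
        have e2 : Disjoint (Ico (m - (l : ℤ)) (M - m + 1)) (Ico (M - m + 1) m) :=
          Finset.Ico_disjoint_Ico_consecutive _ _ _
        rw [e1, Finset.sum_union e2, refl_zero _ M m anti, add_zero]
      · nlinarith
      · nlinarith
  obtain ⟨q, hq⟩ : ∃ q : ℤ, q = (l : ℤ) / (4 * n) := ⟨_, rfl⟩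
  obtain ⟨P, hP⟩ : ∃ P : ℤ, P = (2 * n * M - l) / (4 * n) := ⟨_, rfl⟩
  have n4 : (0 : ℤ) < 4 * n := by omega
  have q1 : 4 * (n : ℤ) * q ≤ l := by
    rw [hq]
    exact Int.mul_ediv_self_le n4.ne'
  have q2 : (l : ℤ) < 4 * n * (q + 1) := by
    have := Int.lt_ediv_add_one_mul_self (l : ℤ) n4
    rw [← hq] at this
    linarith
  have P1 : 4 * (n : ℤ) * P ≤ 2 * n * M - l := by
    rw [hP]
    exact Int.mul_ediv_self_le n4.ne'
  have P2 : 2 * (n : ℤ) * M - l < 4 * n * (P + 1) := by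
    have := Int.lt_ediv_add_one_mul_self (2 * n * M - l : ℤ) n4
    rw [← hP] at this
    linarith
  have d1 : (l : ℤ) ≤ 4 * n * (b - (m - l)) := hb2
  have d2 : (l : ℤ) ≤ 4 * n * (b - (q + 1)) := by nlinarith
  have d3 : (l : ℤ) ≤ 4 * n * (P + 1 - (m - l)) := by nlinarith
  have d4 : (l : ℤ) ≤ 4 * n * (P + 1 - (q + 1)) := by nlinarith
  have key : (l : ℤ) ≤ 4 * n * (min b (P + 1) - max (m - l) (q + 1)) := by
    rcases min_choice b (P + 1) with e | e <;> rcases max_choice (m - l) (q + 1) with e' | e' <;>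
      rw [e, e'] <;> assumption
  have hab : max (m - l) (q + 1) ≤ min b (P + 1) := by
    by_contra h
    have : min b (P + 1) - max (m - l) (q + 1) ≤ 0 := by omega
    nlinarith
  have fin := low_sum (D l k) (m - l) b (max (m - l) (q + 1)) (min b (P + 1))
    ((l : ℤ) ^ (k - 1)) K' (le_max_left _ _) (min_le_left _ _) hab (by omega)
    (fun y _ hy => nn y (by omega)) (fun y hy hy' => by
      have y1 : q + 1 ≤ y := (le_max_right _ _).trans hy
      have y2 : y ≤ P := by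
        have := hy'.trans_le (min_le_right b (P + 1))
        omega
      have z1 : 4 * (n : ℤ) * (q + 1) ≤ 4 * n * y := mul_le_mul_of_nonneg_left y1 n4.le
      have z2 : 4 * (n : ℤ) * y ≤ 4 * n * P := mul_le_mul_of_nonneg_left y2 n4.le
      refine ih l hl0 y ?_ ?_
      · push_cast
        linarith
      · rw [← hM]
        push_cast
        linarith)
  rw [← hb] at fin
  have hpow : (l : ℤ) ^ k = l * (l : ℤ) ^ (k - 1) := by
    rw [← pow_succ']
    congr 1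
    omega
  have hv : (0 : ℤ) ≤ (l : ℤ) ^ (k - 1) := by positivity
  rw [hpow]
  calc (l : ℤ) * (l : ℤ) ^ (k - 1)
      ≤ (4 * n * (min b (P + 1) - max (m - l) (q + 1))) * (l : ℤ) ^ (k - 1) :=
        mul_le_mul_of_nonneg_right key hv
    _ = 4 * n * ((min b (P + 1) - max (m - l) (q + 1)) * (l : ℤ) ^ (k - 1)) := by ring
    _ ≤ 4 * n * (K' * D l (k + 1) m) := mul_le_mul_of_nonneg_left fin n4.le
    _ = ((4 * n * K' : ℕ) : ℤ) * D l (k + 1) m := by
        push_cast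
        ring

end LOWaux

theorem t_LOW (hA : S_ANTI) : S_LOW := by
  intro k hk
  induction k, hk using Nat.le_induction with
  | base =>
    intro n hn
    exact ⟨1, 1, one_pos, fun l hl m h1 h2 => LOWaux.base n hn l hl m h1 h2⟩
  | succ k hk ih =>
    intro n hn
    obtain ⟨K', l0, hK, h⟩ := ih (4 * n) (by omega)
    refine ⟨4 * n * K', max l0 (2 * n), by positivity, fun l hl m h1 h2 => ?_⟩
    have := LOWaux.step hA k hk n hn K' l0 h l ((le_max_left _ _).trans hl)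
      ((le_max_right _ _).trans hl) m h1 h2
    simpa using this

end Pool.Agent.R653.UF
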