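import Mathlib
import Pool.Agent.R653.UF.Stm

namespace Pool.Agent.R653.UF

open Finset

namespace Newt

private def VS (l k : ℕ) (m : ℤ) (i j : ℕ) : Finset (Finset ℕ) :=
  ((Icc 1 l).powersetCard (k - i)).filter
    (fun S : Finset ℕ => ∑ x ∈ S, (x : ℤ) = m - (i : ℤ) * (j : ℤ) ∧ j ∈ S)

private def US (l k : ℕ) (m : ℤ) (i j : ℕ) : Finset (Finset ℕ) :=
  ((Icc 1 l).powersetCard (k - i)).filter
    (fun S : Finset ℕ => ∑ x ∈ S, (x : ℤ) = m - (i : ℤ) * (j : ℤ) ∧ ¬ j ∈ S)

private theorem split (l k : ℕ) (m : ℤ) (i j : ℕ) :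
    E l (k - i) (m - (i : ℤ) * (j : ℤ)) = ((VS l k m i j).card : ℤ) + ((US l k m i j).card : ℤ) := by
  unfold E VS US
  rw [← Finset.filter_filter, ← Finset.filter_filter]
  rw [← Nat.cast_add, Finset.card_filter_add_card_filter_not]

private theorem US_succ (l k : ℕ) (m : ℤ) (i j : ℕ) (hi : i + 1 ≤ k) (hj : j ∈ Icc 1 l) :
    (US l k m (i + 1) j).card = (VS l k m i j).card := by
  refine Finset.card_bij (fun S _ => insert j S) ?_ ?_ ?_
  · intro S hS
    unfold US at hS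
    unfold VS
    rw [mem_filter, mem_powersetCard] at hS ⊢
    obtain ⟨⟨h1, h2⟩, h3, h4⟩ := hS
    refine ⟨⟨insert_subset hj h1, ?_⟩, ?_, mem_insert_self _ _⟩
    · rw [card_insert_of_notMem h4, h2]; omega
    · rw [sum_insert h4, h3]; push_cast; ring
  · intro S hS T hT h
    unfold US at hS hT
    rw [mem_filter, mem_powersetCard] at hS hT
    have h1 : (insert j S).erase j = (insert j T).erase j := by
      have h' : insert j S = insert j T := h
      rw [h']
    rwa [erase_insert hS.2.2, erase_insert hT.2.2] at h1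
  · intro T hT
    unfold VS at hT
    rw [mem_filter, mem_powersetCard] at hT
    obtain ⟨⟨h1, h2⟩, h3, h4⟩ := hT
    refine ⟨T.erase j, ?_, insert_erase h4⟩
    unfold US
    rw [mem_filter, mem_powersetCard]
    refine ⟨⟨(erase_subset _ _).trans h1, ?_⟩, ?_, notMem_erase _ _⟩
    · rw [card_erase_of_mem h4, h2]; omega
    · have := Finset.add_sum_erase T (fun x : ℕ => (x : ℤ)) h4
      have h5 : ∑ x ∈ T.erase j, (x : ℤ) = ∑ x ∈ T, (x : ℤ) - (j : ℤ) := by
        linarith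
      rw [h5, h3]; push_cast; ring

private theorem VS_last (l k : ℕ) (m : ℤ) (j : ℕ) : (VS l k m k j).card = 0 := by
  rw [card_eq_zero]
  unfold VS
  rw [filter_eq_empty_iff]
  intro S hS h
  rw [Nat.sub_self, mem_powersetCard, card_eq_zero] at hS
  rw [hS.2] at h
  exact absurd h.2 (notMem_empty _)

private theorem VS_zero (l k : ℕ) (m : ℤ) :
    ∑ j ∈ Icc 1 l, ((VS l k m 0 j).card : ℤ) = (k : ℤ) * E l k m := by
  have h1 : ∀ j, ((VS l k m 0 j).card : ℤ) =
      ∑ S ∈ ((Icc 1 l).powersetCard k).filter (fun S : Finset ℕ => ∑ x ∈ S, (x : ℤ) = m),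
        (if j ∈ S then (1 : ℤ) else 0) := by
    intro j
    unfold VS
    rw [← Finset.filter_filter, Finset.card_filter, Nat.cast_sum]
    simp only [Nat.sub_zero, Nat.cast_zero, zero_mul, sub_zero, Nat.cast_ite, Nat.cast_one]
  simp_rw [h1]
  rw [Finset.sum_comm]
  unfold E
  rw [Finset.sum_congr rfl (g := fun _ => (k : ℤ))]
  · rw [sum_const, nsmul_eq_mul]; ring
  · intro S hS
    rw [mem_filter, mem_powersetCard] at hS
    rw [← Finset.sum_filter, sum_const, nsmul_eq_mul, mul_one]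
    have : (Icc 1 l).filter (fun j => j ∈ S) = S := by
      ext x
      rw [mem_filter]
      exact ⟨fun h => h.2, fun h => ⟨hS.1.1 h, h⟩⟩
    rw [this, hS.1.2]

private theorem telescope (V : ℕ → ℤ) (k : ℕ) :
    ∑ i ∈ Icc 1 k, (-1 : ℤ) ^ (i - 1) * (V i + V (i - 1)) = V 0 - (-1) ^ k * V k := by
  induction k with
  | zero => simp
  | succ k ih =>
    rw [Finset.sum_Icc_succ_top (by omega), ih]
    simp only [Nat.add_sub_cancel]
    rw [pow_succ]
    ring

end Newt

open Newt in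
theorem t_NEWT : S_NEWT := by
  intro l k hk m
  have h : ∀ i ∈ Icc 1 k, (-1 : ℤ) ^ (i - 1) * ∑ j ∈ Icc 1 l, E l (k - i) (m - (i : ℤ) * (j : ℤ)) =
      (-1 : ℤ) ^ (i - 1) * ((∑ j ∈ Icc 1 l, ((VS l k m i j).card : ℤ)) +
        (∑ j ∈ Icc 1 l, ((VS l k m (i - 1) j).card : ℤ))) := by
    intro i hi
    rw [mem_Icc] at hi
    congr 1
    rw [← sum_add_distrib]
    refine sum_congr rfl fun j hj => ?_
    rw [split]
    congr 1
    obtain ⟨i', rfl⟩ : ∃ i', i = i' + 1 := ⟨i - 1, by omega⟩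
    rw [US_succ l k m i' j hi.2 hj]
    simp
  rw [sum_congr rfl h, telescope (fun i => ∑ j ∈ Icc 1 l, ((VS l k m i j).card : ℤ)) k]
  simp only [VS_last, Nat.cast_zero, sum_const_zero, mul_zero, sub_zero]
  rw [VS_zero]

end Pool.Agent.R653.UF
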