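import Mathlib
import Pool.Agent.R653.UF.Stm

/-!
# UF-PERT (helper179)
-/

namespace Pool.Agent.R653.UF

open Finset

namespace PERTaux

theorem E_zero (l : ℕ) (x : ℤ) : E l 0 x = if x = 0 then 1 else 0 := by
  unfold E
  rw [Finset.powersetCard_zero, Finset.filter_singleton]
  by_cases h : x = 0
  · subst h; simp
  · have h' : ¬ (0 : ℤ) = x := fun h2 => h h2.symm
    simp [h, h']

theorem E_one (l : ℕ) (x : ℤ) : E l 1 x = if 1 ≤ x ∧ x ≤ (l : ℤ) then 1 else 0 := by
  unfold E
  split_ifs with h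
  · have h1 : ((Icc 1 l).powersetCard 1).filter (fun S : Finset ℕ => ∑ y ∈ S, (y : ℤ) = x) =
        {{x.toNat}} := by
      ext S
      simp only [mem_filter, mem_powersetCard, mem_singleton]
      constructor
      · rintro ⟨⟨h1, h2⟩, h3⟩
        obtain ⟨a, rfl⟩ := Finset.card_eq_one.1 h2
        rw [sum_singleton] at h3
        congr 1
        omega
      · rintro rfl
        refine ⟨⟨?_, by simp⟩, ?_⟩
        · intro y hy
          rw [mem_singleton] at hy
          subst hy
          rw [mem_Icc]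
          omega
        · rw [sum_singleton]; omega
    rw [h1]; simp
  · have h1 : ((Icc 1 l).powersetCard 1).filter (fun S : Finset ℕ => ∑ y ∈ S, (y : ℤ) = x) = ∅ := by
      rw [Finset.filter_eq_empty_iff]
      intro S hS h3
      rw [mem_powersetCard] at hS
      obtain ⟨a, rfl⟩ := Finset.card_eq_one.1 hS.2
      rw [sum_singleton] at h3
      have h4 := hS.1 (mem_singleton_self a)
      rw [mem_Icc] at h4
      apply h
      omega
    rw [h1]; simp

theorem E_neg (l k : ℕ) {x : ℤ} (hx : x < 0) : E l k x = 0 := by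
  unfold E
  have h1 : ((Icc 1 l).powersetCard k).filter (fun S : Finset ℕ => ∑ y ∈ S, (y : ℤ) = x) = ∅ := by
    rw [Finset.filter_eq_empty_iff]
    intro S _ h3
    have : 0 ≤ ∑ y ∈ S, (y : ℤ) := Finset.sum_nonneg fun y _ => by positivity
    omega
  rw [h1]; simp

theorem fd0 (l : ℕ) (x : ℤ) : |fd (E l 0) x| ≤ (if x = -1 then 1 else 0) +
    (if x = 0 then 1 else 0) := by
  unfold fd
  rw [E_zero, E_zero]
  split_ifs <;> first | omega | norm_num

theorem fd1 {l : ℕ} (hl : 1 ≤ l) (x : ℤ) : |fd (E l 1) x| ≤ (if x = 0 then 1 else 0) +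
    (if x = (l : ℤ) then 1 else 0) := by
  unfold fd
  rw [E_one, E_one]
  split_ifs <;> first | omega | norm_num

/-- a common constant -/
theorem unif (hB : S_BND) (k : ℕ) : ∃ C : ℤ, 4 ≤ C ∧ ∀ r : ℕ, r < k → ∀ l : ℕ, 1 ≤ l → ∀ m : ℤ,
    |fd (E l r) m| ≤ C * (l : ℤ) ^ (r - 2) ∧
    |fd (fd (E l r)) m| ≤ C * (l : ℤ) ^ (r - 3) := by
  choose Cb hC0 hCb using hB
  refine ⟨∑ r ∈ range k, Cb r + 4, ?_, ?_⟩
  · have : 0 ≤ ∑ r ∈ range k, Cb r := Finset.sum_nonneg fun r _ => hC0 r
    linarith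
  · intro r hr l hl m
    have h1 : Cb r ≤ ∑ r ∈ range k, Cb r + 4 := by
      have := Finset.single_le_sum (f := Cb) (fun r _ => hC0 r) (mem_range.2 hr)
      linarith
    obtain ⟨a1, a2, a3⟩ := hCb r l hl m
    have hl0 : (0 : ℤ) ≤ (l : ℤ) := by positivity
    refine ⟨a2.trans ?_, a3.trans ?_⟩ <;>
      exact mul_le_mul_of_nonneg_right h1 (by positivity)

theorem pow_mono_l {l : ℕ} (hl : 1 ≤ l) {e f : ℕ} (h : e ≤ f) : (l : ℤ) ^ e ≤ (l : ℤ) ^ f := by
  have : (1 : ℤ) ≤ (l : ℤ) := by exact_mod_cast hl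
  exact pow_le_pow_right₀ this h

/-- the value at a set `T` -/
def H (G : ℕ → ℤ → ℤ) (b : ℕ) (m : ℤ) (T : Finset ℕ) : ℤ :=
  ∑ k ∈ range (b - T.card + 1), G k (m - ∑ x ∈ T, (x : ℤ))

theorem generic (hW : S_WIN) {G : ℕ → ℤ → ℤ} {F : Finset (Finset ℕ)} {b l w d : ℕ} {C R : ℤ}
    {m : ℤ} (hl : 1 ≤ l) (hwl : w ≤ l) (hd : d ≤ b - 1) (hC0 : 0 ≤ C)
    (hG : ∀ k, k < b → ∀ x, |G k x| ≤ C * (l : ℤ) ^ (k - d))
    (hF : ∀ T ∈ F, T ⊆ Icc (l + 1) (l + w) ∧ T.card ≤ b - 1) (h0 : ∅ ∈ F)
    (hR : ∑ T ∈ F.filter (fun T => ¬ T.card ≤ b - d), |H G b m T| ≤ R) (hdb : 1 ≤ b) (hd1 : 1 ≤ d) :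
    |∑ T ∈ F, H G b m T - G b m| ≤
      (b : ℤ) * ((b : ℤ) + 1) * C * ((w : ℤ) + 1) * (l : ℤ) ^ (b - 1 - d) + R := by
  have hl0 : (0 : ℤ) ≤ (l : ℤ) := by positivity
  have hw0 : (0 : ℤ) ≤ (w : ℤ) := by positivity
  have hwl' : (w : ℤ) ≤ (l : ℤ) := by exact_mod_cast hwl
  set P : ℤ := (l : ℤ) ^ (b - 1 - d) with hP
  have hP0 : 0 ≤ P := by positivity
  -- the empty set
  have e0 : H G b m ∅ = ∑ k ∈ range b, G k m + G b m := by
    unfold H
    simp only [card_empty, Nat.sub_zero, sum_empty, sub_zero]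
    rw [Finset.sum_range_succ]
  have e1 : ∑ T ∈ F, H G b m T = H G b m ∅ + ∑ T ∈ F.erase ∅, H G b m T :=
    (Finset.add_sum_erase F _ h0).symm
  have e2 : ∑ T ∈ F, H G b m T - G b m =
      ∑ k ∈ range b, G k m + ∑ T ∈ F.erase ∅, H G b m T := by
    rw [e1, e0]; ring
  have b1 : |∑ k ∈ range b, G k m| ≤ (b : ℤ) * (C * P) := by
    calc |∑ k ∈ range b, G k m| ≤ ∑ k ∈ range b, |G k m| := Finset.abs_sum_le_sum_abs _ _
      _ ≤ ∑ k ∈ range b, C * P := by
          apply Finset.sum_le_sum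
          intro k hk
          rw [mem_range] at hk
          refine (hG k hk m).trans (mul_le_mul_of_nonneg_left (pow_mono_l hl (by omega)) hC0)
      _ = (b : ℤ) * (C * P) := by rw [Finset.sum_const, nsmul_eq_mul, card_range]
  -- the sets of moderate size
  have hval : ∀ T ∈ F, 1 ≤ T.card → T.card ≤ b - d →
      |H G b m T| ≤ ((b : ℤ) + 1) * (C * (l : ℤ) ^ (b - T.card - d)) := by
    intro T hT h1 h2
    unfold H
    calc |∑ k ∈ range (b - T.card + 1), G k (m - ∑ x ∈ T, (x : ℤ))|
        ≤ ∑ k ∈ range (b - T.card + 1), |G k (m - ∑ x ∈ T, (x : ℤ))| :=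
          Finset.abs_sum_le_sum_abs _ _
      _ ≤ ∑ k ∈ range (b - T.card + 1), C * (l : ℤ) ^ (b - T.card - d) := by
          apply Finset.sum_le_sum
          intro k hk
          rw [mem_range] at hk
          refine (hG k (by omega) _).trans (mul_le_mul_of_nonneg_left (pow_mono_l hl (by omega)) hC0)
      _ = ((b - T.card + 1 : ℕ) : ℤ) * (C * (l : ℤ) ^ (b - T.card - d)) := by
          rw [Finset.sum_const, nsmul_eq_mul, card_range]
      _ ≤ ((b : ℤ) + 1) * (C * (l : ℤ) ^ (b - T.card - d)) := by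
          apply mul_le_mul_of_nonneg_right _ (by positivity)
          have : b - T.card + 1 ≤ b + 1 := by omega
          exact_mod_cast this
  set F1 := (F.erase ∅).filter (fun T => T.card ≤ b - d) with hF1
  set F2 := (F.erase ∅).filter (fun T => ¬ T.card ≤ b - d) with hF2
  have hsplit : ∑ T ∈ F.erase ∅, |H G b m T| =
      ∑ T ∈ F1, |H G b m T| + ∑ T ∈ F2, |H G b m T| :=
    (Finset.sum_filter_add_sum_filter_not _ _ _).symm
  have b2 : ∑ T ∈ F2, |H G b m T| ≤ R := by
    refine le_trans ?_ hR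
    apply Finset.sum_le_sum_of_subset_of_nonneg
    · intro T hT
      rw [hF2, mem_filter, mem_erase] at hT
      rw [mem_filter]
      exact ⟨hT.1.2, hT.2⟩
    · intro T _ _
      exact abs_nonneg _
  have hmap : ∀ T ∈ F1, T.card ∈ Icc 1 (b - d) := by
    intro T hT
    rw [hF1, mem_filter, mem_erase] at hT
    rw [mem_Icc]
    refine ⟨?_, hT.2⟩
    have := Finset.card_pos.2 (Finset.nonempty_iff_ne_empty.2 hT.1.1)
    omega
  have b3 : ∑ T ∈ F1, |H G b m T| ≤ (b : ℤ) * (((b : ℤ) + 1) * C * (w : ℤ) * P) := by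
    rw [← Finset.sum_fiberwise_of_maps_to hmap]
    calc ∑ t ∈ Icc 1 (b - d), ∑ T ∈ F1.filter (fun T => T.card = t), |H G b m T|
        ≤ ∑ t ∈ Icc 1 (b - d), ((b : ℤ) + 1) * C * (w : ℤ) * P := by
          apply Finset.sum_le_sum
          intro t ht
          rw [mem_Icc] at ht
          have hcard : ((F1.filter (fun T => T.card = t)).card : ℤ) ≤ (w : ℤ) ^ t := by
            have h1 : F1.filter (fun T => T.card = t) ⊆ (Icc (l + 1) (l + w)).powersetCard t := by
              intro T hT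
              rw [mem_filter, hF1, mem_filter, mem_erase] at hT
              rw [mem_powersetCard]
              exact ⟨(hF T hT.1.1.2).1, hT.2⟩
            have h2 := (Finset.card_le_card h1).trans (hW l (l + w) t 0 (by omega)).1
            rw [Nat.add_sub_cancel_left] at h2
            exact_mod_cast h2
          calc ∑ T ∈ F1.filter (fun T => T.card = t), |H G b m T|
              ≤ ∑ T ∈ F1.filter (fun T => T.card = t),
                  ((b : ℤ) + 1) * (C * (l : ℤ) ^ (b - t - d)) := by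
                apply Finset.sum_le_sum
                intro T hT
                rw [mem_filter, hF1, mem_filter, mem_erase] at hT
                have := hval T hT.1.1.2 (by omega) (by omega)
                rwa [hT.2] at this
            _ = ((F1.filter (fun T => T.card = t)).card : ℤ) *
                  (((b : ℤ) + 1) * (C * (l : ℤ) ^ (b - t - d))) := by
                rw [Finset.sum_const, nsmul_eq_mul]
            _ ≤ (w : ℤ) ^ t * (((b : ℤ) + 1) * (C * (l : ℤ) ^ (b - t - d))) :=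
                mul_le_mul_of_nonneg_right hcard (by positivity)
            _ ≤ ((b : ℤ) + 1) * C * (w : ℤ) * P := by
                have e3 : (w : ℤ) ^ t = (w : ℤ) * (w : ℤ) ^ (t - 1) := by
                  rw [← pow_succ']; congr 1; omega
                have e4 : (w : ℤ) ^ (t - 1) ≤ (l : ℤ) ^ (t - 1) := pow_le_pow_left₀ hw0 hwl' _
                have e5 : P = (l : ℤ) ^ (t - 1) * (l : ℤ) ^ (b - t - d) := by
                  rw [hP, ← pow_add]; congr 1; omega
                rw [e3, e5]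
                calc (w : ℤ) * (w : ℤ) ^ (t - 1) * (((b : ℤ) + 1) * (C * (l : ℤ) ^ (b - t - d)))
                    ≤ (w : ℤ) * (l : ℤ) ^ (t - 1) * (((b : ℤ) + 1) * (C * (l : ℤ) ^ (b - t - d))) := by
                      apply mul_le_mul_of_nonneg_right _ (by positivity)
                      exact mul_le_mul_of_nonneg_left e4 hw0
                  _ = _ := by ring
      _ = ((Icc 1 (b - d)).card : ℤ) * (((b : ℤ) + 1) * C * (w : ℤ) * P) := by
          rw [Finset.sum_const, nsmul_eq_mul]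
      _ ≤ (b : ℤ) * (((b : ℤ) + 1) * C * (w : ℤ) * P) := by
          apply mul_le_mul_of_nonneg_right _ (by positivity)
          have : (Icc 1 (b - d)).card ≤ b := by rw [Nat.card_Icc]; omega
          exact_mod_cast this
  rw [e2]
  refine (abs_add_le _ _).trans ?_
  have b4 : |∑ T ∈ F.erase ∅, H G b m T| ≤ ∑ T ∈ F.erase ∅, |H G b m T| :=
    Finset.abs_sum_le_sum_abs _ _
  have b5 : (b : ℤ) * (C * P) ≤ (b : ℤ) * (((b : ℤ) + 1) * C * P) := by
    apply mul_le_mul_of_nonneg_left _ (by positivity)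
    have : (0 : ℤ) ≤ (b : ℤ) * (C * P) := by positivity
    nlinarith
  calc _ ≤ (b : ℤ) * (C * P) + ((b : ℤ) * (((b : ℤ) + 1) * C * (w : ℤ) * P) + R) := by
        linarith
    _ ≤ (b : ℤ) * (((b : ℤ) + 1) * C * P) + ((b : ℤ) * (((b : ℤ) + 1) * C * (w : ℤ) * P) + R) := by
        linarith
    _ = _ := by ring

end PERTaux

open PERTaux in
theorem t_PERT (hD : S_DEC) (hW : S_WIN) (hS : S_SUP) (hB : S_BND) : S_PERT := by
  intro b hb
  obtain ⟨C, hC4, hC⟩ := unif hB b
  refine ⟨(b : ℤ) * ((b : ℤ) + 1) * C + 4, by positivity, ?_⟩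
  intro lam hdec w hw hwl m
  set l : ℕ := lam (b - 1) with hl'
  have hl : 1 ≤ l := hdec.2
  have hl0 : (0 : ℤ) ≤ (l : ℤ) := by positivity
  have hw0 : (0 : ℤ) ≤ (w : ℤ) := by positivity
  have hwl' : (w : ℤ) ≤ (l : ℤ) := by exact_mod_cast hwl
  set F : Finset (Finset ℕ) := ((Icc (l + 1) (lam 0)).powerset).filter
      (fun T : Finset ℕ => ∀ i < b, (T.filter (fun x => lam i < x)).card ≤ i) with hFdef
  have hA : ∀ m : ℤ, A b lam m = ∑ T ∈ F, H (E l) b m T := fun m => hD b lam (by omega) hdec m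
  have hFsub : ∀ T ∈ F, T ⊆ Icc (l + 1) (l + w) ∧ T.card ≤ b - 1 := by
    intro T hT
    rw [hFdef, mem_filter, mem_powerset] at hT
    have h1 : T ⊆ Icc (l + 1) (l + w) := by rw [← hw]; exact hT.1
    refine ⟨h1, ?_⟩
    have h2 := hT.2 (b - 1) (by omega)
    have h3 : T.filter (fun x => lam (b - 1) < x) = T := by
      apply Finset.filter_true_of_mem
      intro x hx
      have := h1 hx
      rw [mem_Icc] at this
      rw [← hl']
      omega
    rwa [h3] at h2
  have h0F : ∅ ∈ F := by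
    rw [hFdef, mem_filter]
    simp
  have e1 : ∀ m : ℤ, fd (A b lam) m = ∑ T ∈ F, H (fun k => fd (E l k)) b m T := by
    intro m
    unfold fd
    rw [hA, hA, ← Finset.sum_sub_distrib]
    refine Finset.sum_congr rfl fun T _ => ?_
    unfold H
    rw [← Finset.sum_sub_distrib]
    refine Finset.sum_congr rfl fun k _ => ?_
    rw [show m + 1 - ∑ x ∈ T, (x : ℤ) = m - ∑ x ∈ T, (x : ℤ) + 1 by ring]
  have e2 : fd (fd (A b lam)) m = ∑ T ∈ F, H (fun k => fd (fd (E l k))) b m T := by
    change fd (A b lam) (m + 1) - fd (A b lam) m = _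
    rw [e1, e1, ← Finset.sum_sub_distrib]
    refine Finset.sum_congr rfl fun T _ => ?_
    unfold H
    rw [← Finset.sum_sub_distrib]
    refine Finset.sum_congr rfl fun k _ => ?_
    rw [show m + 1 - ∑ x ∈ T, (x : ℤ) = m - ∑ x ∈ T, (x : ℤ) + 1 by ring]
    rfl
  have hsum : ∀ T ∈ F, ∀ t : ℕ, t ≤ T.card → (t : ℤ) * ((l : ℤ) + 1) ≤ ∑ x ∈ T, (x : ℤ) := by
    intro T hT t ht
    have h1 : (T.card : ℤ) * ((l : ℤ) + 1) ≤ ∑ x ∈ T, (x : ℤ) := by
      have := Finset.card_nsmul_le_sum T (fun x => (x : ℤ)) ((l : ℤ) + 1) (by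
        intro x hx
        have := (hFsub T hT).1 hx
        rw [mem_Icc] at this
        have : l + 1 ≤ x := this.1
        exact_mod_cast this)
      rwa [nsmul_eq_mul] at this
    refine le_trans ?_ h1
    apply mul_le_mul_of_nonneg_right _ (by positivity)
    exact_mod_cast ht
  constructor
  · -- first difference
    have hRR : ∑ T ∈ F.filter (fun T => ¬ T.card ≤ b - 2), |H (fun k => fd (E l k)) b m T| ≤
        4 * (w : ℤ) * (l : ℤ) ^ (b - 3) := by
      set F2 := F.filter (fun T => ¬ T.card ≤ b - 2) with hF2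
      have hc2 : ∀ T ∈ F2, T.card = b - 1 := by
        intro T hT
        rw [hF2, mem_filter] at hT
        have := (hFsub T hT.1).2
        omega
      have hcount : ∀ s : ℤ, ∑ T ∈ F2, (if m - ∑ x ∈ T, (x : ℤ) = s then (1 : ℤ) else 0) ≤
          (w : ℤ) ^ (b - 2) := by
        intro s
        rw [← Finset.sum_filter, Finset.sum_const, nsmul_eq_mul, mul_one]
        have h1 : F2.filter (fun T : Finset ℕ => m - ∑ x ∈ T, (x : ℤ) = s) ⊆
            ((Icc (l + 1) (l + w)).powersetCard (b - 1)).filter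
              (fun T : Finset ℕ => ∑ x ∈ T, (x : ℤ) = m - s) := by
          intro T hT
          rw [mem_filter] at hT
          rw [mem_filter, mem_powersetCard]
          refine ⟨⟨?_, hc2 T hT.1⟩, by omega⟩
          have := hT.1
          rw [hF2, mem_filter] at this
          exact (hFsub T this.1).1
        have h2 := (Finset.card_le_card h1).trans
          ((hW l (l + w) (b - 1) (m - s) (by omega)).2 (by omega))
        rw [Nat.add_sub_cancel_left, show b - 1 - 1 = b - 2 by omega] at h2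
        exact_mod_cast h2
      calc ∑ T ∈ F2, |H (fun k => fd (E l k)) b m T|
          ≤ ∑ T ∈ F2, ((if m - ∑ x ∈ T, (x : ℤ) = -1 then (1 : ℤ) else 0) +
              (if m - ∑ x ∈ T, (x : ℤ) = 0 then (1 : ℤ) else 0) +
              ((if m - ∑ x ∈ T, (x : ℤ) = 0 then (1 : ℤ) else 0) +
              (if m - ∑ x ∈ T, (x : ℤ) = (l : ℤ) then (1 : ℤ) else 0))) := by
            apply Finset.sum_le_sum
            intro T hT
            unfold H
            rw [hc2 T hT, show b - (b - 1) + 1 = 2 by omega, Finset.sum_range_succ,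
              Finset.sum_range_one]
            exact (abs_add_le _ _).trans (add_le_add (fd0 l _) (fd1 hl _))
        _ = ∑ T ∈ F2, (if m - ∑ x ∈ T, (x : ℤ) = -1 then (1 : ℤ) else 0) +
              ∑ T ∈ F2, (if m - ∑ x ∈ T, (x : ℤ) = 0 then (1 : ℤ) else 0) +
              (∑ T ∈ F2, (if m - ∑ x ∈ T, (x : ℤ) = 0 then (1 : ℤ) else 0) +
              ∑ T ∈ F2, (if m - ∑ x ∈ T, (x : ℤ) = (l : ℤ) then (1 : ℤ) else 0)) := by
            rw [Finset.sum_add_distrib, Finset.sum_add_distrib, Finset.sum_add_distrib]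
        _ ≤ (w : ℤ) ^ (b - 2) + (w : ℤ) ^ (b - 2) + ((w : ℤ) ^ (b - 2) + (w : ℤ) ^ (b - 2)) :=
            add_le_add (add_le_add (hcount _) (hcount _)) (add_le_add (hcount _) (hcount _))
        _ = 4 * ((w : ℤ) * (w : ℤ) ^ (b - 3)) := by
            have : (w : ℤ) ^ (b - 2) = (w : ℤ) * (w : ℤ) ^ (b - 3) := by
              rw [← pow_succ']; congr 1; omega
            rw [this]; ring
        _ ≤ 4 * ((w : ℤ) * (l : ℤ) ^ (b - 3)) := by
            have : (w : ℤ) ^ (b - 3) ≤ (l : ℤ) ^ (b - 3) := pow_le_pow_left₀ hw0 hwl' _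
            have := mul_le_mul_of_nonneg_left this hw0
            linarith
        _ = _ := by ring
    have h := generic hW (G := fun k => fd (E l k)) (F := F) (b := b) (l := l) (w := w) (d := 2)
      (C := C) (m := m) hl hwl (by omega) (by linarith) (fun k hk x => (hC k hk l hl x).1) hFsub
      h0F hRR (by omega) (by norm_num)
    rw [← e1 m] at h
    have e3 : b - 1 - 2 = b - 3 := by omega
    rw [e3] at h
    refine h.trans ?_
    have hp : (0 : ℤ) ≤ (l : ℤ) ^ (b - 3) := by positivity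
    nlinarith
  · intro hm
    have hRR : ∑ T ∈ F.filter (fun T => ¬ T.card ≤ b - 3), |H (fun k => fd (fd (E l k))) b m T| ≤
        0 := by
      apply Finset.sum_nonpos
      intro T hT
      rw [mem_filter] at hT
      have h1 := hsum T hT.1 (b - 2) (by omega)
      have h2 : ((b - 2 : ℕ) : ℤ) = (b : ℤ) - 2 := by omega
      rw [h2] at h1
      have h3 : H (fun k => fd (fd (E l k))) b m T = 0 := by
        unfold H
        apply Finset.sum_eq_zero
        intro k _
        set y : ℤ := m - ∑ x ∈ T, (x : ℤ) with hy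
        have hy0 : y < 0 := by rw [hy]; linarith
        have hy1 : y + 1 < 0 := by rw [hy]; linarith
        have hy2 : y + 1 + 1 < 0 := by rw [hy]; linarith
        change E l k (y + 1 + 1) - E l k (y + 1) - (E l k (y + 1) - E l k y) = 0
        rw [E_neg l k hy0, E_neg l k hy1, E_neg l k hy2]
        norm_num
      rw [h3, abs_zero]
    have h := generic hW (G := fun k => fd (fd (E l k))) (F := F) (b := b) (l := l) (w := w)
      (d := 3) (C := C) (m := m) hl hwl (by omega) (by linarith)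
      (fun k hk x => (hC k hk l hl x).2) hFsub h0F hRR (by omega) (by norm_num)
    rw [← e2] at h
    have e3 : b - 1 - 3 = b - 4 := by omega
    rw [e3] at h
    refine h.trans ?_
    have hp : (0 : ℤ) ≤ (l : ℤ) ^ (b - 4) := by positivity
    have hq : (0 : ℤ) ≤ ((w : ℤ) + 1) * (l : ℤ) ^ (b - 4) := by positivity
    nlinarith

end Pool.Agent.R653.UF
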