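import Mathlib
import Pool.Agent.R653.UF.Stm

/-! UF-REC (project MP_71be06_co): combination of APP, ANTI, LOW. -/

namespace Pool.Agent.R653.UF

open Finset

namespace Rec27

/-- from a lower bound for the main term to one for the difference -/
theorem comb (L P Q C K F X Y : ℤ) (hK : 0 < K) (hF : 0 < F) (hP : 0 ≤ P) (hQ : Q = L * P)
    (hL : 2 * K * C ≤ L) (h1 : Q ≤ K * Y) (h2 : |F * X - Y| ≤ C * P) :
    Q ≤ 2 * K * F * X := by
  have h3 := (abs_le.1 h2).1
  have h4 : K * (Y - C * P) ≤ K * (F * X) := by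
    apply mul_le_mul_of_nonneg_left _ hK.le
    linarith
  have h5 : 2 * K * C * P ≤ L * P := mul_le_mul_of_nonneg_right hL hP
  nlinarith

theorem up (A B X : ℤ) (hB : 1 ≤ B) (hA : 0 < A) (q : ℤ) (hq : 0 ≤ q) (h : q ≤ A * X) :
    q ≤ A * B * X := by
  have h1 : 0 ≤ A * X := hq.trans h
  nlinarith

end Rec27

open Rec27 in
theorem t_REC (hP : S_APP) (hA : S_ANTI) (hL : S_LOW) : S_REC := by
  intro b hb
  obtain ⟨C, hC0, hC⟩ := hP b hb
  obtain ⟨K1, l1, hK1, h1⟩ := hL (b - 1) (by omega) 8 (by norm_num)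
  obtain ⟨K2, l2, hK2, h2⟩ := hL (b - 2) (by omega) 8 (by norm_num)
  have hf : (0 : ℤ) < (b.factorial : ℤ) := by exact_mod_cast b.factorial_pos
  refine ⟨2 * K1 * b.factorial * K2, l1 + l2 + 4 + 2 * K1 * C.toNat + 2 * K2 * C.toNat,
    by positivity, ?_⟩
  intro l hl m
  have hK1' : (0 : ℤ) < (K1 : ℤ) := by exact_mod_cast hK1
  have hK2' : (0 : ℤ) < (K2 : ℤ) := by exact_mod_cast hK2
  have hCn : (C.toNat : ℤ) = C := Int.toNat_of_nonneg hC0
  have hl' : (l1 : ℤ) + l2 + 4 + 2 * K1 * C + 2 * K2 * C ≤ l := by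
    rw [← hCn]
    exact_mod_cast hl
  have hp1 : (0 : ℤ) ≤ 2 * K1 * C := by positivity
  have hp2 : (0 : ℤ) ≤ 2 * K2 * C := by positivity
  have hl1 : l1 ≤ l := by omega
  have hl2 : l2 ≤ l := by omega
  have hl4 : (4 : ℤ) ≤ l := by
    have : 4 ≤ l := by omega
    exact_mod_cast this
  have hlp : 1 ≤ l := by omega
  have hl0 : (0 : ℤ) ≤ l := by omega
  obtain ⟨c1, c2⟩ := hC l hlp m
  have b1 : ((b - 1 : ℕ) : ℤ) = (b : ℤ) - 1 := by omega
  have b2 : ((b - 2 : ℕ) : ℤ) = (b : ℤ) - 2 := by omega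
  have hb' : (5 : ℤ) ≤ b := by exact_mod_cast hb
  have hbl : 5 * (l : ℤ) ≤ (b : ℤ) * l := mul_le_mul_of_nonneg_right hb' hl0
  have e1 : (l : ℤ) ^ (b - 2) = (l : ℤ) * (l : ℤ) ^ (b - 3) := by
    rw [← pow_succ']
    congr 1
    omega
  have e2 : (l : ℤ) ^ (b - 3) = (l : ℤ) * (l : ℤ) ^ (b - 4) := by
    rw [← pow_succ']
    congr 1
    omega
  have n2 : b - 1 - 1 = b - 2 := by omega
  have n3 : b - 2 - 1 = b - 3 := by omega
  rw [n2] at h1
  rw [n3] at h2
  have M1 : ((b - 1 : ℕ) : ℤ) * ((l : ℤ) + 1) + (l : ℤ) = (b : ℤ) * l + b - 1 := by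
    rw [b1]; ring
  have M2 : ((b - 2 : ℕ) : ℤ) * ((l : ℤ) + 1) + (l : ℤ) = (b : ℤ) * l + b - 1 - (l + 1) := by
    rw [b2]; ring
  have p3 : (0 : ℤ) ≤ (l : ℤ) ^ (b - 3) := by positivity
  have p4 : (0 : ℤ) ≤ (l : ℤ) ^ (b - 4) := by positivity
  have p2 : (0 : ℤ) ≤ (l : ℤ) ^ (b - 2) := by positivity
  refine ⟨?_, ?_, ?_⟩
  · intro g1 g2
    have h := h1 l hl1 m (by push_cast; linarith) (by rw [M1]; push_cast; linarith)
    have k := comb l _ _ C K1 _ _ _ hK1' hf p3 e1 (by linarith) h c1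
    have k2 := up (2 * K1 * b.factorial) K2 _ (by omega) (by positivity) _ p2 k
    push_cast
    linarith
  · intro g1 g2
    have h := h1 l hl1 ((b : ℤ) * l + b - 1 - m) (by push_cast; linarith)
      (by rw [M1]; push_cast; linarith)
    have a := (hA l (b - 1) (by omega) m).1
    rw [M1] at a
    rw [a] at h
    have c1' : |(b.factorial : ℤ) * (- fd (E l b) m) - (- D l (b - 1) m)| ≤
        C * (l : ℤ) ^ (b - 3) := by
      have : (b.factorial : ℤ) * (- fd (E l b) m) - (- D l (b - 1) m) =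
        -((b.factorial : ℤ) * fd (E l b) m - D l (b - 1) m) := by ring
      rw [this, abs_neg]
      exact c1
    have k := comb l _ _ C K1 _ _ _ hK1' hf p3 e1 (by linarith) h c1'
    have k2 := up (2 * K1 * b.factorial) K2 _ (by omega) (by positivity) _ p2 k
    push_cast
    linarith
  · intro g1 g2
    have h := h2 l hl2 ((b : ℤ) * l + b - 1 - (l + 1) - m) (by push_cast; linarith)
      (by rw [M2]; push_cast; linarith)
    have a := (hA l (b - 2) (by omega) m).1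
    rw [M2] at a
    rw [a] at h
    have h' := h2 l hl2 (m - l) (by push_cast; linarith) (by rw [M2]; push_cast; linarith)
    have c2' : |(b.factorial : ℤ) * (- fd (fd (E l b)) m) -
        (- (D l (b - 2) m - D l (b - 2) (m - (l : ℤ))))| ≤ C * (l : ℤ) ^ (b - 4) := by
      have : (b.factorial : ℤ) * (- fd (fd (E l b)) m) -
        (- (D l (b - 2) m - D l (b - 2) (m - (l : ℤ)))) =
        -((b.factorial : ℤ) * fd (fd (E l b)) m -
          (D l (b - 2) m - D l (b - 2) (m - (l : ℤ)))) := by ring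
      rw [this, abs_neg]
      exact c2
    have h3 : (l : ℤ) ^ (b - 3) ≤ K2 * (- (D l (b - 2) m - D l (b - 2) (m - (l : ℤ)))) := by
      nlinarith
    have k := comb l _ _ C K2 _ _ _ hK2' hf p4 e2 (by linarith) h3 c2'
    have k2 := up (2 * K2 * b.factorial) K1 _ (by omega) (by positivity) _ p3 k
    push_cast
    linarith

end Pool.Agent.R653.UF
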