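import Mathlib
import Pool.Agent.R653.UF.Stm

/-! UF-SUP (project MP_71be06_co): sums over progressions for `k ≤ 1`. -/

namespace Pool.Agent.R653.UF

open Finset

namespace Sup27

theorem E0 (l : ℕ) (x : ℤ) : E l 0 x = if x = 0 then 1 else 0 := by
  unfold E
  rw [powersetCard_zero, filter_singleton]
  by_cases h : x = 0
  · subst h
    simp
  · rw [if_neg, if_neg h]
    · simp
    · rw [sum_empty]
      exact fun h' => h h'.symm

theorem E1 (l : ℕ) (x : ℤ) : E l 1 x = if 1 ≤ x ∧ x ≤ l then 1 else 0 := by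
  unfold E
  rw [powersetCard_one, filter_map, card_map]
  by_cases h : 1 ≤ x ∧ x ≤ l
  · rw [if_pos h]
    have : (Icc 1 l).filter ((fun S : Finset ℕ => ∑ y ∈ S, (y : ℤ) = x) ∘
        (⟨_, singleton_injective⟩ : ℕ ↪ Finset ℕ)) = {x.toNat} := by
      ext j
      simp only [mem_filter, mem_Icc, Function.comp, Function.Embedding.coeFn_mk, sum_singleton,
        mem_singleton]
      omega
    rw [this]
    simp
  · rw [if_neg h]
    have : (Icc 1 l).filter ((fun S : Finset ℕ => ∑ y ∈ S, (y : ℤ) = x) ∘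
        (⟨_, singleton_injective⟩ : ℕ ↪ Finset ℕ)) = ∅ := by
      ext j
      simp only [mem_filter, mem_Icc, Function.comp, Function.Embedding.coeFn_mk, sum_singleton,
        notMem_empty, iff_false]
      omega
    rw [this]
    simp

/-- indicator -/
def ind (a x : ℤ) : ℤ := if x = a then 1 else 0

theorem sum_ind (l i : ℕ) (hi : 1 ≤ i) (m a : ℤ) :
    ∑ j ∈ Icc 1 l, ind a (m - (i : ℤ) * (j : ℤ)) ≤ 1 := by
  unfold ind
  rw [sum_ite, sum_const_zero, add_zero, sum_const, nsmul_eq_mul, mul_one]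
  have : ((Icc 1 l).filter (fun j : ℕ => m - (i : ℤ) * (j : ℤ) = a)).card ≤ 1 := by
    rw [card_le_one]
    intro p hp q hq
    rw [mem_filter] at hp hq
    have h1 : (i : ℤ) * p = i * q := by linarith [hp.2, hq.2]
    have hi' : (i : ℤ) ≠ 0 := by positivity
    exact_mod_cast mul_left_cancel₀ hi' h1
  exact_mod_cast this

theorem a0 (l : ℕ) (x : ℤ) : |E l 0 x| ≤ ind 0 x := by
  rw [E0, abs_le]; unfold ind; constructor <;> split_ifs <;> omega

theorem b0 (l : ℕ) (x : ℤ) : |fd (E l 0) x| ≤ ind (-1) x + ind 0 x := by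
  unfold fd
  rw [E0, E0, abs_le]; unfold ind; constructor <;> split_ifs <;> omega

theorem b1 (l : ℕ) (x : ℤ) : |fd (E l 1) x| ≤ ind 0 x + ind l x := by
  unfold fd
  rw [E1, E1, abs_le]; unfold ind; constructor <;> split_ifs <;> omega

theorem c0 (l : ℕ) (x : ℤ) : |fd (fd (E l 0)) x| ≤ ind (-2) x + 2 * ind (-1) x + ind 0 x := by
  unfold fd
  simp only [E0]
  rw [abs_le]; unfold ind; constructor <;> split_ifs <;> omega

theorem c1 (l : ℕ) (x : ℤ) : |fd (fd (E l 1)) x| ≤
    ind (-1) x + ind 0 x + ind (l - 1) x + ind l x := by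
  unfold fd
  simp only [E1]
  rw [abs_le]; unfold ind; constructor <;> split_ifs <;> omega

end Sup27

open Sup27 in
theorem t_SUP : S_SUP := by
  intro l k i hk hi m
  refine ⟨?_, ?_, ?_⟩
  · exact (sum_le_sum fun j _ => a0 l _).trans (sum_ind l i hi m 0)
  · interval_cases k
    · refine (sum_le_sum fun j _ => b0 l _).trans ?_
      rw [sum_add_distrib]
      linarith [sum_ind l i hi m (-1), sum_ind l i hi m 0]
    · refine (sum_le_sum fun j _ => b1 l _).trans ?_
      rw [sum_add_distrib]
      linarith [sum_ind l i hi m 0, sum_ind l i hi m l]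
  · interval_cases k
    · refine (sum_le_sum fun j _ => c0 l _).trans ?_
      rw [sum_add_distrib, sum_add_distrib, ← mul_sum]
      linarith [sum_ind l i hi m (-2), sum_ind l i hi m (-1), sum_ind l i hi m 0]
    · refine (sum_le_sum fun j _ => c1 l _).trans ?_
      rw [sum_add_distrib, sum_add_distrib, sum_add_distrib]
      linarith [sum_ind l i hi m (-1), sum_ind l i hi m 0, sum_ind l i hi m (l - 1),
        sum_ind l i hi m l]

end Pool.Agent.R653.UF
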