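import Mathlib
import Pool.Agent.R653.UF.Stm

/-!
# Project UF, piece TOP: the counts decrease at the end
-/

namespace Pool.Agent.R653.UF.TOP

open Finset

theorem inf_mem {S : Finset ℕ} (h : S.Nonempty) : sInf (S : Set ℕ) ∈ S := by
  have : sInf (S : Set ℕ) ∈ (S : Set ℕ) := Nat.sInf_mem (by simpa using h)
  simpa using this

theorem inf_le' {S : Finset ℕ} {x : ℕ} (h : x ∈ S) : sInf (S : Set ℕ) ≤ x :=
  Nat.sInf_le (by simpa using h)

/-- the sum of an admissible set is at most the sum of the largest parts -/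
theorem sum_le (b : ℕ) (lam : ℕ → ℕ) : ∀ (n : ℕ) (S : Finset ℕ), S.card = n → n ≤ b →
    (∀ i < b, (S.filter (fun x => lam i < x)).card ≤ i) →
    ∑ x ∈ S, (x : ℤ) ≤ ∑ i ∈ range n, (lam i : ℤ) := by
  intro n
  induction n with
  | zero =>
    intro S hS _ _
    rw [Finset.card_eq_zero] at hS
    subst hS
    simp
  | succ n ih =>
    intro S hS hn hc
    have hne : S.Nonempty := by
      rw [← Finset.card_pos]
      omega
    have hs := inf_mem hne
    set s := sInf (S : Set ℕ) with hsdef
    have h1 : s ≤ lam n := by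
      by_contra hcon
      push Not at hcon
      have h2 : S.filter (fun x => lam n < x) = S := by
        rw [Finset.filter_eq_self]
        intro x hx
        exact lt_of_lt_of_le hcon (inf_le' hx)
      have h3 := hc n (by omega)
      rw [h2, hS] at h3
      omega
    have h2 := ih (S.erase s) (by rw [Finset.card_erase_of_mem hs, hS]; rfl) (by omega)
      (fun i hi => (Finset.card_le_card (Finset.filter_subset_filter _
        (Finset.erase_subset _ _))).trans (hc i hi))
    rw [Finset.sum_range_succ, ← Finset.add_sum_erase S (fun x : ℕ => (x : ℤ)) hs]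
    have h3 : (s : ℤ) ≤ lam n := by exact_mod_cast h1
    linarith

/-- decrease the minimum by one; the result may contain `0` -/
noncomputable def u (S : Finset ℕ) : Finset ℕ :=
  insert (sInf (S : Set ℕ) - 1) (S.erase (sInf (S : Set ℕ)))

/-- decrease the minimum by one, and delete zero -/
noncomputable def g (S : Finset ℕ) : Finset ℕ := (u S).erase 0

theorem pred_notMem {S : Finset ℕ} (h1 : ∀ x ∈ S, 1 ≤ x) (h : S.Nonempty) :
    sInf (S : Set ℕ) - 1 ∉ S.erase (sInf (S : Set ℕ)) := by
  intro hx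
  have h2 := inf_le' (Finset.mem_of_mem_erase hx)
  have h3 := h1 _ (inf_mem h)
  omega

theorem card_u {S : Finset ℕ} (h1 : ∀ x ∈ S, 1 ≤ x) (h : S.Nonempty) : (u S).card = S.card := by
  rw [u, Finset.card_insert_of_notMem (pred_notMem h1 h), Finset.card_erase_of_mem (inf_mem h)]
  have := h.card_pos
  omega

theorem inf_u {S : Finset ℕ} (h1 : ∀ x ∈ S, 1 ≤ x) (h : S.Nonempty) :
    sInf ((u S : Finset ℕ) : Set ℕ) = sInf (S : Set ℕ) - 1 := by
  apply le_antisymm
  · exact inf_le' (Finset.mem_insert_self _ _)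
  · have hne : (u S).Nonempty := ⟨_, Finset.mem_insert_self _ _⟩
    have h2 := inf_mem hne
    unfold u at h2
    rw [Finset.mem_insert] at h2
    rcases h2 with h2 | h2
    · exact h2.ge
    · have h3 := inf_le' (Finset.mem_of_mem_erase h2)
      unfold u
      omega

theorem u_inj {S S' : Finset ℕ} (h1 : ∀ x ∈ S, 1 ≤ x) (h1' : ∀ x ∈ S', 1 ≤ x) (h : S.Nonempty)
    (h' : S'.Nonempty) (e : u S = u S') : S = S' := by
  have e1 : sInf (S : Set ℕ) = sInf (S' : Set ℕ) := by
    have h2 := inf_u h1 h
    rw [e, inf_u h1' h'] at h2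
    have h3 := h1 _ (inf_mem h)
    have h4 := h1' _ (inf_mem h')
    omega
  have e2 : S.erase (sInf (S : Set ℕ)) = S'.erase (sInf (S' : Set ℕ)) := by
    have h2 : (u S).erase (sInf (S : Set ℕ) - 1) = S.erase (sInf (S : Set ℕ)) := by
      rw [u, Finset.erase_insert (pred_notMem h1 h)]
    have h3 : (u S').erase (sInf (S' : Set ℕ) - 1) = S'.erase (sInf (S' : Set ℕ)) := by
      rw [u, Finset.erase_insert (pred_notMem h1' h')]
    rw [← h2, ← h3, e, e1]
  rw [← Finset.insert_erase (inf_mem h), ← Finset.insert_erase (inf_mem h'), e2, e1]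

theorem g_inj {S S' : Finset ℕ} (h1 : ∀ x ∈ S, 1 ≤ x) (h1' : ∀ x ∈ S', 1 ≤ x) (h : S.Nonempty)
    (h' : S'.Nonempty) (hc : S.card = S'.card) (e : g S = g S') : S = S' := by
  apply u_inj h1 h1' h h'
  have hcu : (u S).card = (u S').card := by rw [card_u h1 h, card_u h1' h', hc]
  have e' : (u S).erase 0 = (u S').erase 0 := e
  have h0 : (0 : ℕ) ∈ u S ↔ (0 : ℕ) ∈ u S' := by
    have h3 : ∀ U U' : Finset ℕ, U.card = U'.card → U.erase 0 = U'.erase 0 → 0 ∈ U → 0 ∈ U' := by
      intro U U' hU he h0
      by_contra hcon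
      have h4 : U'.erase 0 = U' := Finset.erase_eq_of_notMem hcon
      have h5 := Finset.card_erase_of_mem h0
      have h6 : 0 < U.card := Finset.card_pos.2 ⟨0, h0⟩
      rw [he, h4] at h5
      omega
    exact ⟨h3 _ _ hcu e', h3 _ _ hcu.symm e'.symm⟩
  by_cases h2 : (0 : ℕ) ∈ u S
  · rw [← Finset.insert_erase h2, ← Finset.insert_erase (h0.1 h2), e']
  · rw [← Finset.erase_eq_of_notMem h2, ← Finset.erase_eq_of_notMem (fun h3 => h2 (h0.2 h3)), e']

theorem top_main : S_TOP := by
  intro b lam hb hlam m hm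
  unfold A
  norm_cast
  have hcard : ∀ S : Finset ℕ, S.card ≤ b → (∀ i < b, (S.filter (fun x => lam i < x)).card ≤ i) →
      ∑ x ∈ S, (x : ℤ) = m + 1 → S.card = b := by
    intro S h1 h2 h3
    by_contra hcon
    have h4 : S.card ≤ b - 1 := by omega
    have h5 := sum_le b lam S.card S rfl h1 h2
    have h6 : ∑ i ∈ range S.card, (lam i : ℤ) ≤ ∑ i ∈ range (b - 1), (lam i : ℤ) :=
      Finset.sum_le_sum_of_subset_of_nonneg (Finset.range_mono h4) (fun i _ _ => by positivity)
    have h7 : ∑ i ∈ range b, (lam i : ℤ) = ∑ i ∈ range (b - 1), (lam i : ℤ) + lam (b - 1) := by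
      have e : b = (b - 1) + 1 := by omega
      conv_lhs => rw [e]
      rw [Finset.sum_range_succ]
    linarith
  refine Finset.card_le_card_of_injOn g ?_ ?_
  · intro S hS
    simp only [coe_filter, mem_powerset, Set.mem_ofPred_eq] at hS ⊢
    obtain ⟨hS1, hS2, hS3, hS4⟩ := hS
    have hbc := hcard S hS2 hS3 (by exact_mod_cast hS4)
    have hne : S.Nonempty := by
      rw [← Finset.card_pos]
      omega
    have h1 : ∀ x ∈ S, 1 ≤ x := fun x hx => (Finset.mem_Icc.1 (hS1 hx)).1
    have hs := inf_mem hne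
    have hnm := pred_notMem h1 hne
    have hus : u S = insert (sInf (S : Set ℕ) - 1) (S.erase (sInf (S : Set ℕ))) := rfl
    set s := sInf (S : Set ℕ) with hsdef
    have hs1 : 1 ≤ s := h1 s hs
    have hs2 : s ≤ lam 0 := (Finset.mem_Icc.1 (hS1 hs)).2
    have hgu : ∀ x ∈ g S, x ≠ 0 ∧ (x = s - 1 ∨ (x ≠ s ∧ x ∈ S)) := by
      intro x hx
      rw [g, Finset.mem_erase, hus, Finset.mem_insert, Finset.mem_erase] at hx
      exact hx
    refine ⟨?_, ?_, ?_, ?_⟩
    · intro x hx
      obtain ⟨h2, h3⟩ := hgu x hx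
      rw [Finset.mem_Icc]
      rcases h3 with h3 | h3
      · omega
      · have := Finset.mem_Icc.1 (hS1 h3.2)
        omega
    · have h2 : (g S).card ≤ (u S).card := Finset.card_le_card (Finset.erase_subset _ _)
      rw [card_u h1 hne] at h2
      omega
    · intro i hi
      by_cases hi' : lam i < s - 1
      · have hsub : (g S).filter (fun x => lam i < x) ⊆
            insert (s - 1) ((S.filter (fun x => lam i < x)).erase s) := by
          intro x hx
          rw [Finset.mem_filter] at hx
          obtain ⟨h2, h3⟩ := hgu x hx.1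
          rw [Finset.mem_insert, Finset.mem_erase, Finset.mem_filter]
          tauto
        have hc := (Finset.card_le_card hsub).trans (Finset.card_insert_le _ _)
        have hsf : s ∈ S.filter (fun x => lam i < x) := Finset.mem_filter.2 ⟨hs, by omega⟩
        rw [Finset.card_erase_of_mem hsf] at hc
        have h4 := hS3 i hi
        have h5 : 0 < (S.filter (fun x => lam i < x)).card := Finset.card_pos.2 ⟨s, hsf⟩
        omega
      · refine (Finset.card_le_card ?_).trans (hS3 i hi)
        intro x hx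
        rw [Finset.mem_filter] at hx ⊢
        obtain ⟨h2, h3⟩ := hgu x hx.1
        rcases h3 with h3 | h3
        · omega
        · exact ⟨h3.2, hx.2⟩
    · have h2 : ∑ x ∈ g S, (x : ℤ) = ∑ x ∈ u S, (x : ℤ) := by
        rw [g]
        by_cases h0 : (0 : ℕ) ∈ u S
        · have := Finset.add_sum_erase (u S) (fun x : ℕ => (x : ℤ)) h0
          simpa using this
        · rw [Finset.erase_eq_of_notMem h0]
      have h3 := Finset.add_sum_erase S (fun x : ℕ => (x : ℤ)) hs
      rw [h2, hus, Finset.sum_insert hnm]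
      rw [Nat.cast_sub hs1]
      have h4 : ∑ x ∈ S, (x : ℤ) = m + 1 := by exact_mod_cast hS4
      push_cast
      linarith
  · intro S hS S' hS' e
    simp only [coe_filter, mem_powerset, Set.mem_ofPred_eq] at hS hS'
    have hbc := hcard S hS.2.1 hS.2.2.1 (by exact_mod_cast hS.2.2.2)
    have hbc' := hcard S' hS'.2.1 hS'.2.2.1 (by exact_mod_cast hS'.2.2.2)
    have hne : S.Nonempty := by
      rw [← Finset.card_pos]
      omega
    have hne' : S'.Nonempty := by
      rw [← Finset.card_pos]
      omega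
    exact g_inj (fun x hx => (Finset.mem_Icc.1 (hS.1 hx)).1)
      (fun x hx => (Finset.mem_Icc.1 (hS'.1 hx)).1) hne hne' (by omega) e

end Pool.Agent.R653.UF.TOP

namespace Pool.Agent.R653.UF

/-- UF-TOP -/
theorem t_TOP : S_TOP := TOP.top_main

end Pool.Agent.R653.UF
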