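import Mathlib
import Pool.Agent.R653.UF.Stm

namespace Pool.Agent.R653.UF

open Finset

theorem t_WIN : S_WIN := by
  intro l L t s hl
  have hcard : ∀ t : ℕ, ((Icc (l + 1) L).powersetCard t).card ≤ (L - l) ^ t := by
    intro t
    rw [card_powersetCard, Nat.card_Icc]
    have h1 : L + 1 - (l + 1) = L - l := by omega
    rw [h1]
    exact Nat.choose_le_pow _ _
  refine ⟨hcard t, fun ht => ?_⟩
  refine le_trans ?_ (hcard (t - 1))
  have hmem : ∀ T : Finset ℕ, T.card = t → T.sup id ∈ T := by
    intro T hT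
    have hne : T.Nonempty := by
      rw [← Finset.card_pos]
      omega
    obtain ⟨i, hi, he⟩ := Finset.exists_mem_eq_sup T hne id
    rw [he]
    exact hi
  refine Finset.card_le_card_of_injOn (fun T => T.erase (T.sup id)) ?_ ?_
  · intro T hT
    have hT' := Finset.mem_coe.1 hT
    rw [mem_filter, mem_powersetCard] at hT'
    obtain ⟨⟨h1, h2⟩, _⟩ := hT'
    rw [Finset.mem_coe, mem_powersetCard]
    refine ⟨(erase_subset _ _).trans h1, ?_⟩
    rw [card_erase_of_mem (hmem T h2), h2]
  · intro T hT T' hT' he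
    have hT1 := Finset.mem_coe.1 hT
    have hT2 := Finset.mem_coe.1 hT'
    rw [mem_filter, mem_powersetCard] at hT1 hT2
    obtain ⟨⟨_, h2⟩, h3⟩ := hT1
    obtain ⟨⟨_, h5⟩, h6⟩ := hT2
    have he' : T.erase (T.sup id) = T'.erase (T'.sup id) := he
    have h7 := Finset.add_sum_erase T (fun x : ℕ => (x : ℤ)) (hmem T h2)
    have h8 := Finset.add_sum_erase T' (fun x : ℕ => (x : ℤ)) (hmem T' h5)
    rw [h3, he'] at h7
    rw [h6] at h8
    have h9 : T.sup id = T'.sup id := by
      have : ((T.sup id : ℕ) : ℤ) = ((T'.sup id : ℕ) : ℤ) := by linarith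
      exact_mod_cast this
    rw [← insert_erase (hmem T h2), ← insert_erase (hmem T' h5), he', h9]

end Pool.Agent.R653.UF
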